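import Pool.Agent.R797.HK.Mn
import Pool.Agent.TH192.DT.Span
import Pool.Agent.W574.SM.Det

set_option autoImplicit false
set_option linter.unusedSectionVars false
set_option linter.unusedVariables false

/-! # The charts at the exceptional divisors over the secant varieties -/

namespace Pool.Agent.R797.HK

open MvPowerSeries Pool.Agent.W574.SM Pool.Agent.TH192.DT

/-- the coordinates, indexed by the natural numbers -/
noncomputable def cX (n m : ℕ) : MvPowerSeries (Fin n) ℂ := if h : m < n then X ⟨m, h⟩ else 0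

noncomputable def pp (n i j : ℕ) : MvPowerSeries (Fin n) ℂ := cX n (2 * i - 1 - j)

noncomputable def WW (n i s : ℕ) (κ : ℕ → ℂ) (l : ℕ) : MvPowerSeries (Fin n) ℂ :=
  if l = s then 1 else cX n (2 * i + l) + MvPowerSeries.C (κ l) * cor i s (pp n i) l

noncomputable def gg (n i : ℕ) (lam : ℂ) (m : ℕ) : MvPowerSeries (Fin n) ℂ :=
  if m < i then cX n m + (if m + 1 = i then MvPowerSeries.C lam else 0) else 0

theorem gg_ge (n i : ℕ) (lam : ℂ) (m : ℕ) (h : i ≤ m) : gg n i lam m = 0 := if_neg (by omega)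

theorem jet_C {σ : Type} (l : σ) (c : ℂ) :
    jet l (MvPowerSeries.C c : MvPowerSeries σ ℂ) = TrivSqZeroExt.inl c := by
  rw [jet_apply, constantCoeff_C, pderiv_C, map_zero, TrivSqZeroExt.inr_zero, add_zero]

theorem jet_cX (n : ℕ) (l : Fin n) (m : ℕ) :
    jet l (cX n m) = TrivSqZeroExt.inr (if (l : ℕ) = m then 1 else 0) := by
  classical
  rw [cX]
  split_ifs with h h2 h2
  · rw [jet_apply, constantCoeff_X, TrivSqZeroExt.inl_zero, zero_add]
    congr 1
    rw [← coeff_zero_eq_constantCoeff_apply, coeff_pderiv]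
    have h3 : (⟨m, h⟩ : Fin n) = l := Fin.ext h2.symm
    simp [coeff_X, h3]
  · rw [jet_apply, constantCoeff_X, TrivSqZeroExt.inl_zero, zero_add]
    congr 1
    rw [← coeff_zero_eq_constantCoeff_apply, coeff_pderiv]
    have h3 : l ≠ (⟨m, h⟩ : Fin n) := fun h' => h2 (by rw [h'])
    simp [coeff_X, Finsupp.single_left_inj, h3]
  · exact absurd (h2 ▸ l.2) h
  · rw [map_zero, TrivSqZeroExt.inr_zero]

section

variable (n i s : ℕ) (κ : ℕ → ℂ) (lam : ℂ) (l : Fin n)

/-- the jets of the coefficients of the recurrence -/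
noncomputable def jp (j : ℕ) : DualNumber ℂ := jet l (pp n i j)

theorem jp_eq (j : ℕ) : jp n i l j
    = TrivSqZeroExt.inr (if (l : ℕ) = 2 * i - 1 - j then 1 else 0) := jet_cX _ _ _

theorem jp_mul (j j' : ℕ) : jp n i l j * jp n i l j' = 0 := by
  rw [jp_eq, jp_eq, TrivSqZeroExt.inr_mul_inr]

theorem jet_cor (m : ℕ) : jet l (cor i s (pp n i) m) = cor i s (jp n i l) m := by
  rw [cor, cor, apply_ite (jet l), map_zero]
  rfl

theorem cor_inr (m : ℕ) : ∃ e : ℂ, cor i s (jp n i l) m = TrivSqZeroExt.inr e := by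
  rw [cor]
  split_ifs
  · exact ⟨_, jp_eq _ _ _ _⟩
  · exact ⟨0, (TrivSqZeroExt.inr_zero ℂ).symm⟩

theorem jet_WW (m : ℕ) : jet l (WW n i s κ m) = if m = s then 1 else
    TrivSqZeroExt.inr (if (l : ℕ) = 2 * i + m then 1 else 0) +
      TrivSqZeroExt.inl (κ m) * cor i s (jp n i l) m := by
  rw [WW, apply_ite (jet l), map_one, map_add, map_mul, jet_cor, jet_C, jet_cX]

theorem inr_mul_zero (a b c d : ℂ) : (TrivSqZeroExt.inr a : DualNumber ℂ) *
    (TrivSqZeroExt.inr b + TrivSqZeroExt.inl c * TrivSqZeroExt.inr d) = 0 := by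
  rw [TrivSqZeroExt.inl_mul_inr, ← TrivSqZeroExt.inr_add, TrivSqZeroExt.inr_mul_inr]

theorem jp_mul_WW (j m : ℕ) : jp n i l j * jet l (WW n i s κ m)
    = if m = s then jp n i l j else 0 := by
  rw [jet_WW]
  by_cases h : m = s
  · rw [if_pos h, if_pos h, mul_one]
  · rw [if_neg h, if_neg h]
    obtain ⟨e, he⟩ := cor_inr n i s l m
    rw [he, jp_eq]
    exact inr_mul_zero _ _ _ _

theorem exists_inl (x : DualNumber ℂ) (c : ℂ) (h : x.fst = c) :
    ∃ e : ℂ, x = TrivSqZeroExt.inl c + TrivSqZeroExt.inr e :=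
  ⟨x.snd, by rw [← h]; exact (TrivSqZeroExt.inl_fst_add_inr_snd_eq x).symm⟩

/-- the jets of the entries of the Schur complement -/
theorem jsch (ρ χ : ℕ) : ∃ e : ℂ, sch i (jp n i l)
    (fun m => jet l (WW n i s κ m)) ρ χ
      = TrivSqZeroExt.inl (if ρ + χ = s then 1 else 0) + TrivSqZeroExt.inr e := by
  rw [sch_nil i s _ _ (fun j j' _ _ => jp_mul n i l j j') (fun j m _ => jp_mul_WW n i s κ l j m),
    jet_WW]
  obtain ⟨e, he⟩ := cor_inr n i s l (ρ + χ)
  rw [he]
  refine exists_inl _ _ ?_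
  split_ifs <;> simp

theorem jsch' (ρ χ : ℕ) (h : ρ + χ ≠ s)
    (hκ : κ (ρ + χ) = 1 - (if s < ρ then 1 else 0) - (if s < χ then 1 else 0)) :
    sch i (jp n i l) (fun m => jet l (WW n i s κ m)) ρ χ
      = TrivSqZeroExt.inr (if (l : ℕ) = 2 * i + (ρ + χ) then 1 else 0) := by
  rw [sch_nil i s _ _ (fun j j' _ _ => jp_mul n i l j j') (fun j m _ => jp_mul_WW n i s κ l j m),
    jet_WW, if_neg h, hκ, add_sub_assoc]
  have h1 : (TrivSqZeroExt.inl (1 - (if s < ρ then 1 else 0) - (if s < χ then 1 else 0) : ℂ) :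
      DualNumber ℂ) = (1 - (if s < ρ then 1 else 0) - (if s < χ then 1 else 0)) := by
    split_ifs <;> simp
  rw [h1, sub_self, add_zero]

/-- the jets of the initial values -/
theorem jet_gg (m : ℕ) : jet l (gg n i lam m) = if m < i then
    TrivSqZeroExt.inr (if (l : ℕ) = m then 1 else 0) +
      (if m + 1 = i then TrivSqZeroExt.inl lam else 0) else 0 := by
  rw [gg, apply_ite (jet l), map_zero, map_add, jet_cX, apply_ite (jet l), map_zero, jet_C]

theorem jp_mul_gg (j m : ℕ) : jp n i l j * jet l (gg n i lam m)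
    = if m + 1 = i then TrivSqZeroExt.inl lam * jp n i l j else 0 := by
  rw [jet_gg, jp_eq]
  by_cases h : m < i
  · rw [if_pos h, mul_add, TrivSqZeroExt.inr_mul_inr, zero_add]
    by_cases h2 : m + 1 = i
    · rw [if_pos h2, if_pos h2, mul_comm]
    · rw [if_neg h2, if_neg h2, mul_zero]
  · rw [if_neg h, mul_zero, if_neg (by omega)]

/-- the jets of the unperturbed sequence -/
theorem jet_sol (m : ℕ) : jet l (sol i (pp n i) (gg n i lam) m) = if m < i then
    TrivSqZeroExt.inr (if (l : ℕ) = m then 1 else 0) +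
      (if m + 1 = i then TrivSqZeroExt.inl lam else 0) else
    if m < 2 * i then TrivSqZeroExt.inr (if (l : ℕ) = m then - lam else 0) else 0 := by
  rw [sol_map]
  change sol i (jp n i l) _ m = _
  by_cases h : m < i
  · rw [if_pos h, sol_lt i _ _ h, jet_gg, if_pos h]
  · rw [if_neg h, sol_nil i _ (fun j j' _ _ => jp_mul n i l j j') _ (not_lt.1 h), jet_gg, if_neg h,
      zero_sub]
    simp only [jp_mul_gg]
    by_cases h2 : m < 2 * i
    · rw [if_pos h2, Finset.sum_eq_single (⟨2 * i - 1 - m, by omega⟩ : Fin i)]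
      · rw [if_pos (by change m - i + (2 * i - 1 - m) + 1 = i; omega), jp_eq,
          TrivSqZeroExt.inl_mul_inr, ← TrivSqZeroExt.inr_neg]
        congr 1
        have h3 : 2 * i - 1 - (2 * i - 1 - m) = m := by omega
        change - (lam • (if (l : ℕ) = 2 * i - 1 - (2 * i - 1 - m) then (1 : ℂ) else 0)) = _
        rw [h3]
        split_ifs <;> simp
      · intro j _ hj
        have hj2 := j.2
        rw [if_neg]
        intro h3
        apply hj
        apply Fin.ext
        change (j : ℕ) = 2 * i - 1 - m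
        omega
      · intro h; exact absurd (Finset.mem_univ _) h
    · rw [if_neg h2, Finset.sum_eq_zero, neg_zero]
      intro j _
      have hj2 := j.2
      rw [if_neg (by omega)]

theorem cc_sol (m : ℕ) : constantCoeff (sol i (pp n i) (gg n i lam) m)
    = if m + 1 = i then lam else 0 := by
  rw [sol_map]
  have h0 : ∀ m, constantCoeff (cX n m) = 0 := by
    intro m
    rw [cX]
    split_ifs
    · exact constantCoeff_X _
    · exact map_zero _
  rcases Nat.lt_or_ge m i with h | h
  · rw [sol_lt i _ _ h, gg, if_pos h, map_add, h0, zero_add, apply_ite constantCoeff,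
      constantCoeff_C, map_zero]
  · rw [sol_nil i _ (fun j j' _ _ => by rw [pp, h0, zero_mul]) _ h, gg_ge _ _ _ _ h, map_zero,
      if_neg (by omega), Finset.sum_eq_zero, sub_zero]
    intro j _
    rw [pp, h0, zero_mul]

/-- the value of the determinant of the block of the initial values -/
noncomputable def cA : ℂ := (Matrix.of fun a b : Fin i => if (a : ℕ) + b + 1 = i then lam else 0).det

theorem cA_ne (hlam : lam ≠ 0) : cA i lam ≠ 0 := by
  have h : (Matrix.of fun a b : Fin i => if (a : ℕ) + b + 1 = i then lam else 0) *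
      (Matrix.of fun a b : Fin i => if (a : ℕ) + b + 1 = i then lam else 0)
      = (lam * lam) • (1 : Matrix (Fin i) (Fin i) ℂ) := by
    ext a b
    rw [Matrix.mul_apply, Finset.sum_eq_single a.rev]
    · have ha := a.2
      have hb := b.2
      rw [Matrix.of_apply, Matrix.of_apply, Matrix.smul_apply, Matrix.one_apply, smul_eq_mul,
        if_pos (by rw [Fin.val_rev]; omega), mul_ite, mul_zero, mul_ite, mul_one, mul_zero]
      congr 1
      rw [Fin.val_rev, eq_iff_iff, Fin.ext_iff]
      omega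
    · intro c _ hc
      have ha := a.2
      have hc2 := c.2
      rw [Matrix.of_apply, if_neg, zero_mul]
      intro h3
      apply hc
      apply Fin.ext
      rw [Fin.val_rev]
      omega
    · intro h; exact absurd (Finset.mem_univ _) h
  intro h0
  have h1 := congrArg Matrix.det h
  rw [Matrix.det_mul, Matrix.det_smul, Matrix.det_one, mul_one] at h1
  change cA i lam * cA i lam = _ at h1
  rw [h0, zero_mul] at h1
  exact pow_ne_zero _ (mul_ne_zero hlam hlam) h1.symm

theorem jet_A : ∃ e : ℂ, jet l (Matrix.of fun a b : Fin i =>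
    sol i (pp n i) (gg n i lam) ((a : ℕ) + b)).det
      = TrivSqZeroExt.inl (cA i lam) + TrivSqZeroExt.inr e := by
  refine exists_inl _ _ ?_
  rw [jet_fst, RingHom.map_det, cA]
  congr 1
  ext a b
  rw [RingHom.mapMatrix_apply, Matrix.map_apply, Matrix.of_apply, Matrix.of_apply, cc_sol]

/-- **The jets of the special minors.** -/
theorem jet_MM (zi : Fin n) (hl : l ≠ zi) {Q : Type} [Fintype Q] [DecidableEq Q] (ρ χ : Q → ℕ) :
    ∃ e : ℂ, jet l (MM i (pp n i) (WW n i s κ) (gg n i lam) (X zi) ρ χ).det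
      = (TrivSqZeroExt.inl (cA i lam) + TrivSqZeroExt.inr e) *
        (Matrix.of fun q q' => sch i (jp n i l) (fun m => jet l (WW n i s κ m))
          (ρ q) (χ q')).det := by
  obtain ⟨e, he⟩ := jet_A n i lam l
  refine ⟨e, ?_⟩
  have hX : jet l (X zi) = 0 := by
    have h1 : (X zi : MvPowerSeries (Fin n) ℂ) = cX n zi := by rw [cX, dif_pos zi.2]
    rw [h1, jet_cX, if_neg fun h => hl (Fin.ext h), TrivSqZeroExt.inr_zero]
  rw [RingHom.map_det, MM_map, det_MM i _ _ _ _ (fun m hm => by rw [gg_ge _ _ _ _ hm, map_zero]) hX,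
    ← he, RingHom.map_det]
  congr 2
  ext1 a b
  rw [RingHom.mapMatrix_apply, Matrix.map_apply, Matrix.of_apply, Matrix.of_apply, sol_map]

end

end Pool.Agent.R797.HK
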