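import Pool.Agent.R797.HK.Jac

set_option autoImplicit false
set_option linter.unusedSectionVars false
set_option linter.unusedVariables false

/-! # The orders of the minors and the coordinates given by them -/

namespace Pool.Agent.R797.HK

open MvPowerSeries Pool.Agent.W574.SM Pool.Agent.TH192.DT

/-- The generic Hankel matrix with `a + 1` rows and `b + 1` columns. -/
noncomputable def hankel (a b : ℕ) :
    Matrix (Fin (a + 1)) (Fin (b + 1)) (MvPolynomial (Fin (a + b + 1)) ℂ) :=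
  Matrix.of fun r c => MvPolynomial.X ⟨(r : ℕ) + c, by omega⟩

/-- The minors of size `d` of the generic Hankel matrix. -/
noncomputable def hkMinors (a b d : ℕ) (rc : (Fin d → Fin (a + 1)) × (Fin d → Fin (b + 1))) :
    MvPolynomial (Fin (a + b + 1)) ℂ :=
  ((hankel a b).submatrix rc.1 rc.2).det

section

variable (a b i s : ℕ) (κ : ℕ → ℂ) (lam : ℂ) (zi : Fin (a + b + 1))

/-- the chart as a family indexed by the variables -/
noncomputable def chF (m : Fin (a + b + 1)) : MvPowerSeries (Fin (a + b + 1)) ℂ :=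
  ch (a + b + 1) i s κ lam zi m

theorem aeval_minors (d : ℕ) (rc : (Fin d → Fin (a + 1)) × (Fin d → Fin (b + 1))) :
    MvPolynomial.aeval (chF a b i s κ lam zi) (hkMinors a b d rc)
      = (Matrix.of fun x y => ch (a + b + 1) i s κ lam zi ((rc.1 x : ℕ) + rc.2 y)).det := by
  rw [hkMinors, AlgHom.map_det]
  congr 1
  ext1 x y
  rw [AlgHom.mapMatrix_apply, Matrix.map_apply, Matrix.submatrix_apply, hankel, Matrix.of_apply,
    MvPolynomial.aeval_X]
  rfl

theorem minors_dvd (d : ℕ) (rc : (Fin d → Fin (a + 1)) × (Fin d → Fin (b + 1))) :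
    X zi ^ (d - i) ∣ MvPolynomial.aeval (chF a b i s κ lam zi) (hkMinors a b d rc) := by
  rcases Nat.lt_or_ge d i with h | h
  · rw [Nat.sub_eq_zero_of_le h.le, pow_zero]
    exact one_dvd _
  · rw [aeval_minors]
    have h1 := minor_eq i (pp (a + b + 1) i) (WW (a + b + 1) i s κ) (gg (a + b + 1) i lam) (X zi)
      (gg_ge _ _ _) (fun x => (rc.1 x : ℕ)) (fun x => (rc.2 x : ℕ))
    have h2 := det_rank_add (Matrix.of fun (x : Fin d) (j : Fin i) => xi i (pp (a + b + 1) i)
        (WW (a + b + 1) i s κ) (gg (a + b + 1) i lam) (X zi) ((rc.1 x : ℕ) + j))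
      (Matrix.of fun (j : Fin i) (x : Fin d) => kk i (pp (a + b + 1) i) (rc.2 x : ℕ) j)
      (Matrix.of fun x y => yy i (pp (a + b + 1) i) (WW (a + b + 1) i s κ) (rc.1 x : ℕ)
        (rc.2 y : ℕ)) (X zi)
    rw [← h1, Fintype.card_fin, Fintype.card_fin] at h2
    have h3 : (X zi : MvPowerSeries (Fin (a + b + 1)) ℂ) ^ d = X zi ^ i * X zi ^ (d - i) := by
      rw [← pow_add]
      congr 1
      omega
    rw [h3, mul_assoc] at h2
    have h4 : (X zi : MvPowerSeries (Fin (a + b + 1)) ℂ) ^ i ≠ 0 := pow_ne_zero _ (X_ne0 _)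
    exact ⟨_, mul_left_cancel₀ h4 h2⟩

/-- the rows of the special minors -/
def row {N i q : ℕ} {d : ℕ} (eP : Fin i ⊕ Fin q ≃ Fin d) (ρ : Fin q → ℕ)
    (h : ∀ x : Fin i ⊕ Fin q, spr ρ x < N) (x : Fin d) : Fin N := ⟨spr ρ (eP.symm x), h _⟩

theorem aeval_special {q d : ℕ} (eP : Fin i ⊕ Fin q ≃ Fin d) (ρ χ : Fin q → ℕ)
    (hρ : ∀ x : Fin i ⊕ Fin q, spr ρ x < a + 1) (hχ : ∀ x : Fin i ⊕ Fin q, spr χ x < b + 1) :
    MvPolynomial.aeval (chF a b i s κ lam zi) (hkMinors a b d (row eP ρ hρ, row eP χ hχ))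
      = X zi ^ q * (MM i (pp (a + b + 1) i) (WW (a + b + 1) i s κ) (gg (a + b + 1) i lam) (X zi)
        ρ χ).det := by
  rw [aeval_minors]
  have h := special_minor i (pp (a + b + 1) i) (WW (a + b + 1) i s κ) (gg (a + b + 1) i lam) (X zi)
    (gg_ge _ _ _) ρ χ
  rw [Fintype.card_fin] at h
  rw [← h, ← Matrix.det_submatrix_equiv_self eP.symm]
  rfl

theorem exists_eP {d : ℕ} (h : i ≤ d) : Nonempty (Fin i ⊕ Fin (d - i) ≃ Fin d) := by
  refine ⟨Fintype.equivOfCardEq ?_⟩
  rw [Fintype.card_sum, Fintype.card_fin, Fintype.card_fin, Fintype.card_fin]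
  omega

/-- the constant coefficients of the special minors of the second kind -/
theorem cc_MM (hs : 0 < s) (hz : (zi : ℕ) = 2 * i + s) {q : ℕ} (hq : q ≤ s + 1) :
    constantCoeff (MM i (pp (a + b + 1) i) (WW (a + b + 1) i s κ) (gg (a + b + 1) i lam) (X zi)
        (fun x : Fin q => (x : ℕ)) (fun x : Fin q => s - x)).det = cA i lam := by
  have hzi := zi.2
  have hl : (⟨0, by omega⟩ : Fin (a + b + 1)) ≠ zi := by
    intro h
    have := congrArg Fin.val h
    change 0 = (zi : ℕ) at this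
    omega
  obtain ⟨e, he⟩ := jet_MM (a + b + 1) i s κ lam ⟨0, by omega⟩ zi hl (fun x : Fin q => (x : ℕ))
    (fun x : Fin q => s - x)
  rw [← jet_fst (⟨0, by omega⟩ : Fin (a + b + 1)), he, TrivSqZeroExt.fst_mul]
  have h1 : (TrivSqZeroExt.fst (Matrix.of fun q_1 q' : Fin q => sch i
      (jp (a + b + 1) i ⟨0, by omega⟩) (fun m => jet ⟨0, by omega⟩ (WW (a + b + 1) i s κ m))
        ((fun x : Fin q => (x : ℕ)) q_1) ((fun x : Fin q => s - (x : ℕ)) q')).det) = (1 : ℂ) := by
    change (TrivSqZeroExt.fstHom ℂ ℂ ℂ).toRingHom (Matrix.det _) = _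
    rw [RingHom.map_det]
    have h2 : (TrivSqZeroExt.fstHom ℂ ℂ ℂ).toRingHom.mapMatrix (Matrix.of fun q_1 q' : Fin q =>
        sch i (jp (a + b + 1) i ⟨0, by omega⟩)
          (fun m => jet ⟨0, by omega⟩ (WW (a + b + 1) i s κ m))
        ((fun x : Fin q => (x : ℕ)) q_1) ((fun x : Fin q => s - (x : ℕ)) q')) = 1 := by
      ext x y
      rw [RingHom.mapMatrix_apply, Matrix.map_apply, Matrix.of_apply, Matrix.one_apply]
      obtain ⟨e', he'⟩ := jsch (a + b + 1) i s κ ⟨0, by omega⟩ (x : ℕ) (s - y)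
      rw [he']
      have hx := x.2
      have hy := y.2
      change TrivSqZeroExt.fst _ = _
      rw [TrivSqZeroExt.fst_add, TrivSqZeroExt.fst_inl, TrivSqZeroExt.fst_inr, add_zero]
      refine if_congr ?_ rfl rfl
      rw [Fin.ext_iff]
      omega
    rw [h2, Matrix.det_one]
  rw [h1, mul_one, TrivSqZeroExt.fst_add, TrivSqZeroExt.fst_inl, TrivSqZeroExt.fst_inr, add_zero]

/-- **The orders of the minors.** -/
theorem hasOrd_minors (hs : 0 < s) (ha : i + s ≤ a) (hb : i + s ≤ b) (hlam : lam ≠ 0)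
    (hz : (zi : ℕ) = 2 * i + s) (d : ℕ) (hd : d ≤ i + s + 1) :
    HasOrd zi (chF a b i s κ lam zi) (d - i) (hkMinors a b d) := by
  refine ⟨minors_dvd a b i s κ lam zi d, ?_⟩
  rcases Nat.lt_or_ge d i with h | h
  · let rc : (Fin d → Fin (a + 1)) × (Fin d → Fin (b + 1)) :=
      (fun x => ⟨x, by have := x.2; omega⟩, fun x => ⟨i - 1 - x, by omega⟩)
    refine ⟨hkMinors a b d rc, Submodule.subset_span ⟨_, rfl⟩,
      MvPolynomial.aeval (chF a b i s κ lam zi) (hkMinors a b d rc), ?_, ?_⟩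
    · rw [aeval_minors, RingHom.map_det]
      have h1 : (constantCoeff : MvPowerSeries (Fin (a + b + 1)) ℂ →+* ℂ).mapMatrix
          (Matrix.of fun x y : Fin d => ch (a + b + 1) i s κ lam zi ((rc.1 x : ℕ) + rc.2 y))
          = lam • (1 : Matrix (Fin d) (Fin d) ℂ) := by
        ext x y
        have hx := x.2
        have hy := y.2
        rw [RingHom.mapMatrix_apply, Matrix.map_apply, Matrix.of_apply, cc_ch, Matrix.smul_apply,
          Matrix.one_apply, smul_eq_mul, mul_ite, mul_one, mul_zero]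
        refine if_congr ?_ rfl rfl
        change (x : ℕ) + (i - 1 - y) + 1 = i ↔ _
        rw [Fin.ext_iff]
        omega
      rw [h1, Matrix.det_smul, Matrix.det_one, mul_one]
      exact pow_ne_zero _ hlam
    · rw [Nat.sub_eq_zero_of_le h.le, pow_zero, one_mul]
  · obtain ⟨eP⟩ := exists_eP i h
    refine ⟨_, Submodule.subset_span ⟨_, rfl⟩, _, ?_,
      aeval_special a b i s κ lam zi eP (fun x : Fin (d - i) => (x : ℕ))
        (fun x : Fin (d - i) => s - x) ?_ ?_⟩
    · rw [cc_MM a b i s κ lam zi hs hz (by omega)]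
      exact cA_ne i lam hlam
    · rintro (x | x)
      · have := x.2
        change (x : ℕ) < a + 1
        omega
      · have := x.2
        change i + (x : ℕ) < a + 1
        omega
    · rintro (x | x)
      · have := x.2
        change (x : ℕ) < b + 1
        omega
      · change i + (s - (x : ℕ)) < b + 1
        omega

/-- the numbers `κ` -/
def kap (a i s l : ℕ) : ℂ :=
  1 - (if s < min l (a - i) then 1 else 0) - (if s < l - min l (a - i) then 1 else 0)

theorem exists_mu (q r c : ℕ) : ∃ μ : Fin q → ℕ, Function.Injective μ ∧ (∀ x, μ x ≤ q + 1) ∧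
    (∀ x, μ x ≠ r) ∧ ∀ x, μ x + c ≠ q + 1 := by
  obtain ⟨f, hf, hf2⟩ := exists_avoid q ⟨min r (q + 1), by omega⟩ ⟨q + 1 - c, by omega⟩
  refine ⟨fun x => f x, fun x y h => hf (Fin.ext h), fun x => ?_, fun x h => ?_, fun x h => ?_⟩
  · have := (f x).2
    change (f x : ℕ) ≤ q + 1
    omega
  · have h2 := (f x).2
    apply (hf2 x).1
    apply Fin.ext
    change (f x : ℕ) = min r (q + 1)
    change (f x : ℕ) = r at h
    omega
  · apply (hf2 x).2
    apply Fin.ext
    change (f x : ℕ) = q + 1 - c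
    change (f x : ℕ) + c = q + 1 at h
    omega

/-- **The coordinates given by the minors.** -/
theorem gives_minors (hs : 0 < s) (ha : i + s ≤ a) (hb : i + s ≤ b) (hlam : lam ≠ 0)
    (hz : (zi : ℕ) = 2 * i + s) (t : Fin (a + b + 1)) (ht : 2 * i ≤ (t : ℕ)) (htz : t ≠ zi) :
    Gives zi (chF a b i s (kap a i s) lam zi) (i + s - i) (hkMinors a b (i + s)) t := by
  obtain ⟨q, rfl⟩ : ∃ q, s = q + 1 := ⟨s - 1, by omega⟩
  have htv := t.2
  have htz' : (t : ℕ) ≠ 2 * i + (q + 1) := fun h => htz (Fin.ext (by rw [h, hz]))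
  obtain ⟨r, hr⟩ : ∃ r, r = min ((t : ℕ) - 2 * i) (a - i) := ⟨_, rfl⟩
  obtain ⟨c, hc⟩ : ∃ c, c = (t : ℕ) - 2 * i - r := ⟨_, rfl⟩
  obtain ⟨μ, hμ, hμ1, hμ2, hμ3⟩ := exists_mu q r c
  let ρ : Fin (q + 1) → ℕ := Fin.cons r μ
  let χ : Fin (q + 1) → ℕ := Fin.cons c fun x => q + 1 - μ x
  have hrc : r + c = (t : ℕ) - 2 * i := by omega
  have hκ : kap a i (q + 1) (r + c) = 1 - (if q + 1 < r then 1 else 0)
      - (if q + 1 < c then 1 else 0) := by
    rw [hrc, kap, ← hr, ← hc]
  have hent : ∀ l : Fin (a + b + 1), ∀ x y : Fin (q + 1), x ≠ y → ∃ e : ℂ,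
      sch i (jp (a + b + 1) i l) (fun m => jet l (WW (a + b + 1) i (q + 1) (kap a i (q + 1)) m))
        (ρ x) (χ y) = TrivSqZeroExt.inr e := by
    intro l x y hxy
    obtain ⟨e, he⟩ := jsch (a + b + 1) i (q + 1) (kap a i (q + 1)) l (ρ x) (χ y)
    refine ⟨e, ?_⟩
    rw [he, if_neg, TrivSqZeroExt.inl_zero, zero_add]
    revert hxy
    refine Fin.cases ?_ (fun x' => ?_) x <;> refine Fin.cases ?_ (fun y' => ?_) y
    · intro h; exact absurd rfl h
    · intro _ h
      change r + (q + 1 - μ y') = q + 1 at h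
      have h1 := hμ1 y'
      exact hμ2 y' (by omega)
    · intro _ h
      exact hμ3 x' h
    · intro h1 h
      change μ x' + (q + 1 - μ y') = q + 1 at h
      have h2 := hμ1 x'
      have h3 := hμ1 y'
      apply h1
      rw [hμ (by omega : μ x' = μ y')]
  have hdet : ∀ l : Fin (a + b + 1), (Matrix.of fun x y : Fin (q + 1) =>
      sch i (jp (a + b + 1) i l) (fun m => jet l (WW (a + b + 1) i (q + 1) (kap a i (q + 1)) m))
        (ρ x) (χ y)).det = TrivSqZeroExt.inr (if l = t then 1 else 0) := by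
    intro l
    rw [det_offdiag]
    · rw [Fin.prod_univ_succ, Matrix.of_apply]
      have h0 : sch i (jp (a + b + 1) i l)
          (fun m => jet l (WW (a + b + 1) i (q + 1) (kap a i (q + 1)) m)) (ρ 0) (χ 0)
          = TrivSqZeroExt.inr (if l = t then 1 else 0) := by
        have h1 := jsch' (a + b + 1) i (q + 1) (kap a i (q + 1)) l r c (by omega) hκ
        have h2 : ((l : ℕ) = 2 * i + (r + c)) ↔ l = t := by
          rw [Fin.ext_iff]
          omega
        rw [if_congr h2 rfl rfl] at h1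
        exact h1
      have h3 : ∀ x : Fin q, ∃ e : ℂ, (Matrix.of fun x y : Fin (q + 1) =>
          sch i (jp (a + b + 1) i l) (fun m => jet l (WW (a + b + 1) i (q + 1) (kap a i (q + 1)) m))
            (ρ x) (χ y)) x.succ x.succ = TrivSqZeroExt.inl 1 + TrivSqZeroExt.inr e := by
        intro x
        obtain ⟨e, he⟩ := jsch (a + b + 1) i (q + 1) (kap a i (q + 1)) l (ρ x.succ) (χ x.succ)
        refine ⟨e, ?_⟩
        rw [Matrix.of_apply, he, if_pos]
        change μ x + (q + 1 - μ x) = q + 1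
        have := hμ1 x
        omega
      choose e he using h3
      rw [Finset.prod_congr rfl fun x _ => he x, prod_one_add_inr, h0]
      split_ifs <;> ext <;> simp
    · intro x y x' y' h1 h2
      obtain ⟨e, he⟩ := hent l x y h1
      obtain ⟨e', he'⟩ := hent l x' y' h2
      rw [Matrix.of_apply, Matrix.of_apply, he, he', TrivSqZeroExt.inr_mul_inr]
  have hjet : ∀ l : Fin (a + b + 1), l ≠ zi → jet l (MM i (pp (a + b + 1) i)
      (WW (a + b + 1) i (q + 1) (kap a i (q + 1))) (gg (a + b + 1) i lam) (X zi) ρ χ).det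
      = TrivSqZeroExt.inr (if l = t then cA i lam else 0) := by
    intro l hl
    obtain ⟨e, he⟩ := jet_MM (a + b + 1) i (q + 1) (kap a i (q + 1)) lam l zi hl ρ χ
    rw [he, hdet l]
    split_ifs <;> ext <;> simp
  obtain ⟨eP⟩ := exists_eP i (by omega : i ≤ i + (q + 1))
  have hq1 : i + (q + 1) - i = q + 1 := by omega
  rw [hq1] at eP ⊢
  refine ⟨_, Submodule.subset_span ⟨_, rfl⟩, _, ?_,
    aeval_special a b i (q + 1) (kap a i (q + 1)) lam zi eP ρ χ ?_ ?_⟩
  · refine ⟨?_, ?_, ?_⟩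
    · rw [← jet_fst t, hjet t htz, TrivSqZeroExt.fst_inr]
    · rw [← jet_snd t, hjet t htz, TrivSqZeroExt.snd_inr, if_pos rfl]
      exact cA_ne i lam hlam
    · intro l hl hlt
      rw [← jet_snd l, hjet l hl, TrivSqZeroExt.snd_inr, if_neg hlt]
  · rintro (x | x)
    · have := x.2
      change (x : ℕ) < a + 1
      omega
    · refine Fin.cases ?_ (fun x' => ?_) x
      · change i + r < a + 1
        omega
      · have := hμ1 x'
        change i + μ x' < a + 1
        omega
  · rintro (x | x)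
    · have := x.2
      change (x : ℕ) < b + 1
      omega
    · refine Fin.cases ?_ (fun x' => ?_) x
      · change i + c < b + 1
        omega
      · change i + (q + 1 - μ x') < b + 1
        omega

/-- the coordinates which are polynomials -/
theorem coord_poly (hlam : lam ≠ 0) (t : Fin (a + b + 1)) (ht : (t : ℕ) < 2 * i)
    (htz : t ≠ zi) :
    ∃ q : MvPolynomial (Fin (a + b + 1)) ℂ, IsCoord zi t (MvPolynomial.aeval
      (chF a b i s κ lam zi) q) := by
  have hjet : ∀ l : Fin (a + b + 1), l ≠ zi → jet l (chF a b i s κ lam zi t)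
      = jet l (sol i (pp (a + b + 1) i) (gg (a + b + 1) i lam) t) := by
    intro l hl
    rw [chF, ch, xi, map_add, map_mul, jet_Xz, if_neg hl, TrivSqZeroExt.inr_zero, zero_mul,
      add_zero]
  refine ⟨MvPolynomial.X t - MvPolynomial.C (if (t : ℕ) + 1 = i then lam else 0), ?_⟩
  have h1 : MvPolynomial.aeval (chF a b i s κ lam zi) (MvPolynomial.X t -
      MvPolynomial.C (if (t : ℕ) + 1 = i then lam else 0))
      = chF a b i s κ lam zi t - MvPowerSeries.C (if (t : ℕ) + 1 = i then lam else 0) := by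
    rw [map_sub, MvPolynomial.aeval_X]
    congr 1
    exact MvPolynomial.aeval_C _ _
  have h2 : ∀ l : Fin (a + b + 1), l ≠ zi → (jet l (chF a b i s κ lam zi t -
      MvPowerSeries.C (if (t : ℕ) + 1 = i then lam else 0))).snd
      = if l = t then (if (t : ℕ) < i then 1 else - lam) else 0 := by
    intro l hl
    rw [map_sub, hjet l hl, jet_sol, jet_C, TrivSqZeroExt.snd_sub, TrivSqZeroExt.snd_inl, sub_zero]
    have h3 : ((l : ℕ) = t) ↔ l = t := Fin.ext_iff.symm
    by_cases h : (t : ℕ) < i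
    · rw [if_pos h, if_pos h, TrivSqZeroExt.snd_add, TrivSqZeroExt.snd_inr, if_congr h3 rfl rfl]
      split_ifs <;> simp
    · rw [if_neg h, if_pos ht, if_neg h, TrivSqZeroExt.snd_inr, if_congr h3 rfl rfl]
  rw [h1]
  refine ⟨?_, ?_, ?_⟩
  · rw [map_sub, chF, cc_ch, constantCoeff_C, sub_self]
  · rw [← jet_snd t, h2 t htz, if_pos rfl]
    split_ifs
    · exact one_ne_zero
    · exact neg_ne_zero.2 hlam
  · intro l hl hlt
    rw [← jet_snd l, h2 l hl, if_neg hlt]

end

end Pool.Agent.R797.HK
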