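import Pool.Agent.R797.HK.Chart

set_option autoImplicit false
set_option linter.unusedSectionVars false
set_option linter.unusedVariables false

/-! # The Jacobian determinants, the orders and the coordinates -/

namespace Pool.Agent.R797.HK

open MvPowerSeries Pool.Agent.W574.SM Pool.Agent.TH192.DT

section

variable (n i s : ℕ) (κ : ℕ → ℂ) (lam : ℂ) (zi : Fin n)

/-- the chart -/
noncomputable def ch (m : ℕ) : MvPowerSeries (Fin n) ℂ :=
  xi i (pp n i) (WW n i s κ) (gg n i lam) (X zi) m

/-- the derivatives of the coordinates -/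
theorem pderiv_cX (t : Fin n) (m : ℕ) :
    pderiv ℂ t (cX n m) = if (t : ℕ) = m then 1 else 0 := by
  classical
  rw [cX]
  split_ifs with h h2 h2
  · have h3 : (⟨m, h⟩ : Fin n) = t := Fin.ext h2.symm
    rw [h3, pderiv_X, Pi.single_eq_same]
  · have h3 : t ≠ (⟨m, h⟩ : Fin n) := fun h' => h2 (by rw [h'])
    rw [pderiv_X, Pi.single_eq_of_ne]
    exact h3.symm
  · exact absurd (h2 ▸ t.2) h
  · exact map_zero _

theorem pderiv_pp (t : Fin n) (ht : 2 * i ≤ t) (j : ℕ) (hj : j < i) :
    pderiv ℂ t (pp n i j) = 0 := by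
  rw [pp, pderiv_cX, if_neg (by omega)]

theorem pderiv_sol (t : Fin n) (ht : 2 * i ≤ t) (g : ℕ → MvPowerSeries (Fin n) ℂ) (m : ℕ) :
    pderiv ℂ t (sol i (pp n i) g m) = sol i (pp n i) (fun m => pderiv ℂ t (g m)) m := by
  refine sol_der i (pp n i) (fun x => pderiv ℂ t x) (map_zero _) (fun x y => map_sub _ _ _)
    (fun f => map_sum _ _ _) (fun j x hj => ?_) g m
  change pderiv ℂ t (pp n i j * x) = _
  rw [Derivation.leibniz, pderiv_pp n i t ht j hj, smul_zero, add_zero, smul_eq_mul]

theorem pderiv_cor (t : Fin n) (ht : 2 * i ≤ t) (m : ℕ) :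
    pderiv ℂ t (cor i s (pp n i) m) = 0 := by
  rw [cor]
  split_ifs with h
  · exact pderiv_pp n i t ht _ (by omega)
  · exact map_zero _

/-- the derivatives in the direction of the coordinates on the fibres -/
theorem pderiv_ch (t : Fin n) (ht : 2 * i ≤ t) (htz : t ≠ zi) (hz : (zi : ℕ) = 2 * i + s) (m : ℕ) :
    pderiv ℂ t (ch n i s κ lam zi m)
      = X zi * sol i (pp n i) (fun m => if (t : ℕ) = m then 1 else 0) m := by
  have h1 : pderiv ℂ t (sol i (pp n i) (gg n i lam) m) = 0 := by
    rw [pderiv_sol n i t ht]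
    refine sol_eq_zero i _ _ m fun m' _ => ?_
    rw [gg]
    split_ifs with h h2
    · rw [map_add, pderiv_cX, if_neg (by omega), pderiv_C, add_zero]
    · rw [map_add, pderiv_cX, if_neg (by omega), map_zero, add_zero]
    · exact map_zero _
  have h2 : pderiv ℂ t (X zi : MvPowerSeries (Fin n) ℂ) = 0 := by
    have h3 : (X zi : MvPowerSeries (Fin n) ℂ) = cX n zi := by rw [cX, dif_pos zi.2]
    rw [h3, pderiv_cX, if_neg fun h => htz (Fin.ext h)]
  rw [ch, xi, map_add, h1, zero_add, Derivation.leibniz, h2, smul_zero, add_zero, smul_eq_mul, x1,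
    pderiv_sol n i t ht]
  congr 1
  refine sol_congr i _ _ _ m fun m' _ => ?_
  have htz' : (t : ℕ) ≠ 2 * i + s := fun h => htz (Fin.ext (by rw [h, hz]))
  split_ifs with h3 h4 h4
  · omega
  · exact map_zero _
  · rw [WW, if_neg (by omega), map_add, pderiv_cX, if_pos (by omega), Derivation.leibniz,
      pderiv_cor n i s t ht, pderiv_C, smul_zero, smul_zero, add_zero, add_zero]
  · rw [WW]
    split_ifs with h5
    · exact Derivation.map_one_eq_zero _
    · rw [map_add, pderiv_cX, if_neg (by omega), Derivation.leibniz,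
        pderiv_cor n i s t ht, pderiv_C, smul_zero, smul_zero, add_zero, add_zero]

theorem cc_cX (m : ℕ) : constantCoeff (cX n m) = 0 := by
  rw [cX]
  split_ifs
  · exact constantCoeff_X _
  · exact map_zero _

theorem cc_solg (g : ℕ → MvPowerSeries (Fin n) ℂ) (m : ℕ) :
    constantCoeff (sol i (pp n i) g m) = constantCoeff (g m) := by
  rw [sol_map]
  rcases Nat.lt_or_ge m i with h | h
  · rw [sol_lt i _ _ h]
  · rw [sol_nil i _ (fun j j' _ _ => by rw [pp, cc_cX, zero_mul]) _ h, Finset.sum_eq_zero, sub_zero]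
    intro j _
    rw [pp, cc_cX, zero_mul]

theorem cc_x1 (m : ℕ) : constantCoeff (x1 i (pp n i) (WW n i s κ) m)
    = if m = 2 * i + s then 1 else 0 := by
  rw [x1, cc_solg]
  split_ifs with h1 h2 h2
  · omega
  · exact map_zero _
  · rw [WW, if_pos (by omega), map_one]
  · rw [WW, if_neg (by omega), map_add, cc_cX, zero_add, map_mul, cor]
    split_ifs
    · rw [pp, cc_cX, mul_zero]
    · rw [map_zero, mul_zero]

theorem jet_Xz (l : Fin n) : jet l (X zi) = TrivSqZeroExt.inr (if l = zi then 1 else 0) := by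
  have h1 : (X zi : MvPowerSeries (Fin n) ℂ) = cX n zi := by rw [cX, dif_pos zi.2]
  rw [h1, jet_cX]
  congr 1
  exact if_congr (Fin.ext_iff.symm) rfl rfl

theorem cc_ch (m : ℕ) : constantCoeff (ch n i s κ lam zi m) = if m + 1 = i then lam else 0 := by
  rw [ch, xi, map_add, map_mul, constantCoeff_X, zero_mul, add_zero, cc_sol]

theorem cc_pderiv_ch (t : Fin n) (ht : (t : ℕ) < 2 * i ∨ t = zi) (hz : (zi : ℕ) = 2 * i + s)
    (m : ℕ) :
    constantCoeff (pderiv ℂ t (ch n i s κ lam zi m))
      = if (t : ℕ) = m then (if i ≤ m ∧ m < 2 * i then - lam else 1) else 0 := by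
  have h0 : constantCoeff (pderiv ℂ t (ch n i s κ lam zi m))
      = (jet t (ch n i s κ lam zi m)).snd := by
    rw [jet_apply]; simp
  rw [h0, ch, xi, map_add, map_mul, jet_sol, jet_Xz]
  have h1 : (TrivSqZeroExt.inr (if t = zi then (1 : ℂ) else 0) *
      jet t (x1 i (pp n i) (WW n i s κ) m)).snd
      = if t = zi then (if m = 2 * i + s then 1 else 0) else 0 := by
    rw [TrivSqZeroExt.snd_mul, jet_fst, cc_x1, TrivSqZeroExt.fst_inr, zero_smul, zero_add,
      TrivSqZeroExt.snd_inr]
    split_ifs <;> simp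
  rw [TrivSqZeroExt.snd_add, h1]
  rcases ht with ht | ht
  · have htz : t ≠ zi := fun h => by rw [h] at ht; omega
    rw [if_neg htz, add_zero]
    by_cases h2 : m < i
    · rw [if_pos h2, if_neg (by omega : ¬ (i ≤ m ∧ m < 2 * i)), TrivSqZeroExt.snd_add,
        TrivSqZeroExt.snd_inr]
      split_ifs <;> simp
    · rw [if_neg h2]
      by_cases h3 : m < 2 * i
      · rw [if_pos h3, if_pos (by omega : i ≤ m ∧ m < 2 * i), TrivSqZeroExt.snd_inr]
      · rw [if_neg h3, if_neg (by omega : ¬ (t : ℕ) = m), TrivSqZeroExt.snd_zero]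
  · have ht2 : (t : ℕ) = 2 * i + s := by rw [ht, hz]
    rw [if_pos ht]
    by_cases h2 : m < i
    · rw [if_pos h2, if_neg (by omega : ¬ (t : ℕ) = m), if_neg (by omega : ¬ m = 2 * i + s),
        if_neg (by omega : ¬ (t : ℕ) = m), TrivSqZeroExt.snd_add, TrivSqZeroExt.snd_inr, zero_add,
        add_zero]
      split_ifs <;> simp
    · rw [if_neg h2]
      by_cases h3 : m < 2 * i
      · rw [if_pos h3, if_neg (by omega : ¬ (t : ℕ) = m), if_neg (by omega : ¬ m = 2 * i + s),
          if_neg (by omega : ¬ (t : ℕ) = m), TrivSqZeroExt.snd_inr, zero_add]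
      · rw [if_neg h3, TrivSqZeroExt.snd_zero, zero_add,
          if_neg (by omega : ¬ (i ≤ m ∧ m < 2 * i))]
        exact if_congr (by omega) rfl rfl

/-- the Jacobian matrix, with some rows divided by `z` -/
noncomputable def VV (t m : Fin n) : MvPowerSeries (Fin n) ℂ :=
  if 2 * i ≤ (t : ℕ) ∧ t ≠ zi then sol i (pp n i) (fun m => if (t : ℕ) = m then 1 else 0) m
  else pderiv ℂ t (ch n i s κ lam zi m)

theorem cc_VV (hz : (zi : ℕ) = 2 * i + s) (t m : Fin n) :
    constantCoeff (VV n i s κ lam zi t m)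
      = if t = m then (if i ≤ (t : ℕ) ∧ (t : ℕ) < 2 * i then - lam else 1) else 0 := by
  rw [VV]
  by_cases h : 2 * i ≤ (t : ℕ) ∧ t ≠ zi
  · rw [if_pos h, cc_solg, apply_ite constantCoeff, map_one, map_zero,
      if_neg (by omega : ¬ (i ≤ (t : ℕ) ∧ (t : ℕ) < 2 * i))]
    exact if_congr Fin.ext_iff.symm rfl rfl
  · rw [if_neg h, cc_pderiv_ch n i s κ lam zi t (by
      by_contra h'
      push Not at h'
      exact h h') hz]
    by_cases h2 : t = m
    · subst h2; rw [if_pos rfl, if_pos rfl]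
    · rw [if_neg h2, if_neg fun h3 => h2 (Fin.ext h3)]

theorem jacobian (hlam : lam ≠ 0) (hz : (zi : ℕ) = 2 * i + s) :
    ∃ U : MvPowerSeries (Fin n) ℂ, constantCoeff U ≠ 0 ∧
      (Matrix.of fun t m : Fin n => pderiv ℂ t (ch n i s κ lam zi m)).det
        = X zi ^ (n - 2 * i - 1) * U := by
  classical
  refine ⟨(Matrix.of fun t m => VV n i s κ lam zi t m).det, ?_, ?_⟩
  · rw [RingHom.map_det]
    have h1 : (constantCoeff : MvPowerSeries (Fin n) ℂ →+* ℂ).mapMatrix
        (Matrix.of fun t m => VV n i s κ lam zi t m)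
        = Matrix.diagonal fun t : Fin n =>
          (if i ≤ (t : ℕ) ∧ (t : ℕ) < 2 * i then - lam else 1) := by
      ext t m
      rw [RingHom.mapMatrix_apply, Matrix.map_apply, Matrix.of_apply, cc_VV n i s κ lam zi hz,
        Matrix.diagonal_apply]
    rw [h1, Matrix.det_diagonal]
    refine Finset.prod_ne_zero_iff.2 fun t _ => ?_
    split_ifs
    · exact neg_ne_zero.2 hlam
    · exact one_ne_zero
  · have h1 : (Matrix.of fun t m : Fin n => pderiv ℂ t (ch n i s κ lam zi m))
        = Matrix.of fun t m : Fin n => (if 2 * i ≤ (t : ℕ) ∧ t ≠ zi then X zi else 1) *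
          (Matrix.of fun t m => VV n i s κ lam zi t m) t m := by
      ext1 t m
      rw [Matrix.of_apply, Matrix.of_apply, Matrix.of_apply, VV]
      by_cases h : 2 * i ≤ (t : ℕ) ∧ t ≠ zi
      · rw [if_pos h, if_pos h, pderiv_ch n i s κ lam zi t h.1 h.2 hz]
      · rw [if_neg h, if_neg h, one_mul]
    rw [h1, Matrix.det_mul_column, Finset.prod_ite, Finset.prod_const, Finset.prod_const_one,
      mul_one]
    congr 2
    have h2 : (Finset.univ.filter fun t : Fin n => 2 * i ≤ (t : ℕ) ∧ t ≠ zi)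
        = (Finset.univ.filter fun t : Fin n => 2 * i ≤ (t : ℕ)).erase zi := by
      ext t
      simp only [Finset.mem_filter, Finset.mem_univ, true_and, Finset.mem_erase]
      tauto
    rw [h2, Finset.card_erase_of_mem (by simp [hz])]
    congr 1
    have h3 : (Finset.univ.filter fun t : Fin n => 2 * i ≤ (t : ℕ)).card = n - 2 * i := by
      have h5 : ((Finset.univ.filter fun t : Fin n => 2 * i ≤ (t : ℕ)).image Fin.val)
          = Finset.Ico (2 * i) n := by
        ext x
        simp only [Finset.mem_image, Finset.mem_filter, Finset.mem_univ, true_and,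
          Finset.mem_Ico]
        constructor
        · rintro ⟨t, ht, rfl⟩
          exact ⟨ht, t.2⟩
        · rintro ⟨hx, hx2⟩
          exact ⟨⟨x, hx2⟩, hx, rfl⟩
      rw [← Finset.card_image_of_injective _ Fin.val_injective, h5, Nat.card_Ico]
    exact h3

end

end Pool.Agent.R797.HK
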