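import Pool.Agent.R797.HK.Rec

set_option autoImplicit false
set_option linter.unusedSectionVars false
set_option linter.unusedVariables false

/-! # The minors of the Hankel matrix near a divisor -/

namespace Pool.Agent.R797.HK

section Minor

variable {R : Type} [CommRing R] (i : ℕ) (p W g : ℕ → R) (z : R)

/-- the sequence near the sequences which satisfy the recurrence -/
def xi (m : ℕ) : R := sol i p g m + z * x1 i p W m

theorem xi_map {R' : Type} [CommRing R'] (φ : R →+* R') (m : ℕ) :
    φ (xi i p W g z m) = xi i (fun j => φ (p j)) (fun l => φ (W l)) (fun m => φ (g m)) (φ z) m := by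
  have h : (fun m => φ (if m < 2 * i then 0 else W (m - 2 * i)))
      = fun m => if m < 2 * i then 0 else φ (W (m - 2 * i)) := by
    funext m
    rw [apply_ite φ, map_zero]
  rw [xi, map_add, map_mul, sol_map, x1, sol_map, h]
  rfl

theorem x1_map {R' : Type} [CommRing R'] (φ : R →+* R') (m : ℕ) :
    φ (x1 i p W m) = x1 i (fun j => φ (p j)) (fun l => φ (W l)) m := by
  have h : (fun m => φ (if m < 2 * i then 0 else W (m - 2 * i)))
      = fun m => if m < 2 * i then 0 else φ (W (m - 2 * i)) := by
    funext m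
    rw [apply_ite φ, map_zero]
  rw [x1, sol_map, h]
  rfl

theorem kk_map {R' : Type} [CommRing R'] (φ : R →+* R') (c j : ℕ) :
    φ (kk i p c j) = kk i (fun j => φ (p j)) c j := by
  have h : (fun m => φ (if m = j then 1 else 0))
      = fun m => if m = j then 1 else 0 := by
    funext m
    rw [apply_ite φ, map_zero, map_one]
  rw [kk, sol_map, h]
  rfl

theorem yy_map {R' : Type} [CommRing R'] (φ : R →+* R') (r c : ℕ) :
    φ (yy i p W r c) = yy i (fun j => φ (p j)) (fun l => φ (W l)) r c := by
  rw [yy, map_sub, map_sum, x1_map]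
  simp only [map_mul, x1_map, kk_map]
  rfl

theorem xi_split (hg : ∀ m, i ≤ m → g m = 0) (r c : ℕ) :
    xi i p W g z (r + c) = ∑ j : Fin i, xi i p W g z (r + j) * kk i p c j
      + z * yy i p W r c := by
  have h : ∀ j : Fin i, xi i p W g z (r + j) * kk i p c j
      = kk i p c j * sol i p g (r + j) + z * (kk i p c j * x1 i p W (r + j)) := by
    intro j
    rw [xi]; ring
  rw [Finset.sum_congr rfl fun j _ => h j, Finset.sum_add_distrib, ← Finset.mul_sum,
    ← shift i p g hg r c, xi, yy]
  ring

theorem minor_eq (hg : ∀ m, i ≤ m → g m = 0) {P : Type} [Fintype P] (ρ χ : P → ℕ) :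
    (Matrix.of fun a b => xi i p W g z (ρ a + χ b) : Matrix P P R)
      = (Matrix.of fun a (j : Fin i) => xi i p W g z (ρ a + j)) *
        (Matrix.of fun (j : Fin i) b => kk i p (χ b) j)
        + z • (Matrix.of fun a b => yy i p W (ρ a) (χ b)) := by
  ext a b
  rw [Matrix.of_apply, xi_split i p W g z hg, Matrix.add_apply, Matrix.mul_apply,
    Matrix.smul_apply, smul_eq_mul]
  rfl

/-- the rows of a special minor -/
def spr {i : ℕ} {Q : Type} (ρ : Q → ℕ) : Fin i ⊕ Q → ℕ :=
  Sum.elim (fun j => (j : ℕ)) fun q => i + ρ q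

/-- the matrix of the special minors, with the columns divided by `z` -/
def MM {Q : Type} (ρ χ : Q → ℕ) : Matrix (Fin i ⊕ Q) (Fin i ⊕ Q) R :=
  Matrix.fromBlocks (Matrix.of fun a b => xi i p W g z ((a : ℕ) + b))
    (Matrix.of fun a q => yy i p W a (i + χ q))
    (Matrix.of fun q b => xi i p W g z (i + ρ q + b))
    (Matrix.of fun q q' => yy i p W (i + ρ q) (i + χ q'))

theorem special_minor (hg : ∀ m, i ≤ m → g m = 0) {Q : Type} [Fintype Q] [DecidableEq Q]
    (ρ χ : Q → ℕ) :
    (Matrix.of fun a b => xi i p W g z (spr ρ a + spr χ b) :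
        Matrix (Fin i ⊕ Q) (Fin i ⊕ Q) R).det
      = z ^ Fintype.card Q * (MM i p W g z ρ χ).det := by
  have h1 : (Matrix.of fun a b => xi i p W g z (spr ρ a + spr χ b) :
        Matrix (Fin i ⊕ Q) (Fin i ⊕ Q) R)
      = MM i p W g z ρ χ * Matrix.fromBlocks 1 (Matrix.of fun (j : Fin i) q =>
        kk i p (i + χ q) j) 0 (z • 1) := by
    rw [MM, Matrix.fromBlocks_multiply]
    ext a b
    rcases a with a | a <;> rcases b with b | b
    · simp [spr]
    · rw [Matrix.fromBlocks_apply₁₂, Matrix.add_apply, Matrix.mul_apply, Matrix.mul_smul,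
        Matrix.mul_one, Matrix.smul_apply, smul_eq_mul]
      exact xi_split i p W g z hg _ _
    · simp [spr]
    · rw [Matrix.fromBlocks_apply₂₂, Matrix.add_apply, Matrix.mul_apply, Matrix.mul_smul,
        Matrix.mul_one, Matrix.smul_apply, smul_eq_mul]
      exact xi_split i p W g z hg _ _
  rw [h1, Matrix.det_mul, Matrix.det_fromBlocks_zero₂₁, Matrix.det_one, one_mul, Matrix.det_smul,
    Matrix.det_one, mul_one, mul_comm]

theorem MM_map {R' : Type} [CommRing R'] (φ : R →+* R') {Q : Type} [Fintype Q] [DecidableEq Q]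
    (ρ χ : Q → ℕ) :
    φ.mapMatrix (MM i p W g z ρ χ)
      = MM i (fun j => φ (p j)) (fun l => φ (W l)) (fun m => φ (g m)) (φ z) ρ χ := by
  ext a b
  rw [RingHom.mapMatrix_apply, Matrix.map_apply]
  rcases a with a | a <;> rcases b with b | b
  · exact xi_map i p W g z φ _
  · exact yy_map i p W φ _ _
  · exact xi_map i p W g z φ _
  · exact yy_map i p W φ _ _

theorem det_MM (hg : ∀ m, i ≤ m → g m = 0) (hz : z = 0) {Q : Type} [Fintype Q] [DecidableEq Q]
    (ρ χ : Q → ℕ) :
    (MM i p W g z ρ χ).det = (Matrix.of fun a b : Fin i => sol i p g ((a : ℕ) + b)).det *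
      (Matrix.of fun q q' => sch i p W (ρ q) (χ q')).det := by
  have h0 : ∀ m, xi i p W g z m = sol i p g m := by
    intro m
    rw [xi, hz, zero_mul, add_zero]
  have h1 : MM i p W g z ρ χ
      = Matrix.fromBlocks 1 0 (Matrix.of fun q (j : Fin i) => kk i p (i + ρ q) j) 1 *
        Matrix.fromBlocks (Matrix.of fun a b : Fin i => sol i p g ((a : ℕ) + b))
          (Matrix.of fun a q => yy i p W a (i + χ q)) 0
          (Matrix.of fun q q' => sch i p W (ρ q) (χ q')) := by
    rw [MM, Matrix.fromBlocks_multiply]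
    ext a b
    rcases a with a | a <;> rcases b with b | b
    · simp [h0]
    · simp
    · simp only [Matrix.fromBlocks_apply₂₁, Matrix.of_apply, h0, Matrix.zero_mul, Matrix.mul_zero,
        add_zero, Matrix.mul_apply]
      rw [add_comm, shift i p g hg]
      refine Finset.sum_congr rfl fun j _ => ?_
      rw [add_comm (b : ℕ)]
    · simp only [Matrix.fromBlocks_apply₂₂, Matrix.of_apply, Matrix.one_mul, Matrix.add_apply,
        Matrix.mul_apply, sch]
      ring
  rw [h1, Matrix.det_mul, Matrix.det_fromBlocks_zero₁₂, Matrix.det_fromBlocks_zero₂₁,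
    Matrix.det_one, Matrix.det_one, one_mul, one_mul]

end Minor

end Pool.Agent.R797.HK
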