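import Pool.Agent.R797.HK.Fam
import Pool.Agent.R852.FP.Main

set_option autoImplicit false
set_option linter.unusedSectionVars false
set_option linter.unusedVariables false

/-! # The roots for products of ideals of minors of the generic Hankel matrix -/

namespace Pool.Agent.R797.HK

open MvPowerSeries Pool.Agent.W574.SM Pool.Agent.TH192.DT Pool.Agent.W574.LM Pool.Agent.TH187.SA

/-- The products of minors of the sizes `δ k` of the generic Hankel matrix: generators of the ideal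
`∏ k, I_{δ k}`, where `I_d` is the ideal of the minors of size `d`. -/
noncomputable def hkGen (a b : ℕ) {K : Type} [Fintype K] (δ : K → ℕ)
    (j : (k : K) → (Fin (δ k) → Fin (a + 1)) × (Fin (δ k) → Fin (b + 1))) :
    MvPolynomial (Fin (a + b + 1)) ℂ :=
  prodFam (fun k => hkMinors a b (δ k)) j

/-- **The roots for the products of products of ideals of minors.** -/
theorem hk_core2 {τ : Type} [Fintype τ] [DecidableEq τ] {K : τ → Type} [∀ q, Fintype (K q)]
    [∀ q, DecidableEq (K q)] (a b : ℕ) (δ : (q : τ) → K q → ℕ)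
    (hd : ∀ q k, δ q k ≤ a ∧ δ q k ≤ b) (i : ℕ) (bp : Polynomial ℂ)
    (H0 : MvPolynomial (Fin (a + b + 1)) ℂ) (hH0 : MvPolynomial.constantCoeff H0 ≠ 0)
    (hb : IsLocEq H0 (prodFam fun q => hkGen a b (δ q)) bp) (l : ℕ)
    (hl : l < ∑ q, ∑ k, (δ q k - i)) :
    bp.eval (-(((a + b + 1 - 2 * i : ℕ) : ℂ) + l) / (∑ q, ∑ k, (δ q k - i) : ℕ)) = 0 := by
  classical
  obtain ⟨q1, _, hq1⟩ : ∃ q ∈ Finset.univ, ∑ k, (δ q k - i) ≠ 0 :=
    Finset.exists_ne_zero_of_sum_ne_zero (by omega)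
  obtain ⟨k1, _, hk1⟩ : ∃ k ∈ Finset.univ, δ q1 k - i ≠ 0 :=
    Finset.exists_ne_zero_of_sum_ne_zero hq1
  obtain ⟨p0, _, hp0⟩ := Finset.exists_max_image (Finset.univ : Finset (Σ q, K q))
    (fun p => δ p.1 p.2) ⟨⟨q1, k1⟩, Finset.mem_univ _⟩
  have hmax := hp0 ⟨q1, k1⟩ (Finset.mem_univ _)
  obtain ⟨s, hs⟩ : ∃ s, δ p0.1 p0.2 = i + s := ⟨δ p0.1 p0.2 - i, by
    have h : δ q1 k1 ≤ δ p0.1 p0.2 := hmax
    omega⟩
  have hs0 : 0 < s := by
    have h : δ q1 k1 ≤ δ p0.1 p0.2 := hmax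
    omega
  have ha : i + s ≤ a := hs ▸ (hd p0.1 p0.2).1
  have hb' : i + s ≤ b := hs ▸ (hd p0.1 p0.2).2
  obtain ⟨lam, hlam, hH⟩ := exists_scale H0 hH0
    (fun m : Fin (a + b + 1) => if (m : ℕ) + 1 = i then (1 : ℂ) else 0)
  let zi : Fin (a + b + 1) := ⟨2 * i + s, by omega⟩
  have hz : (zi : ℕ) = 2 * i + s := rfl
  have hxi0 : ∀ m, constantCoeff (chF a b i s (kap a i s) lam zi m)
      = lam * (if (m : ℕ) + 1 = i then (1 : ℂ) else 0) := by
    intro m
    rw [chF, cc_ch]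
    split_ifs <;> simp
  have hHc : constantCoeff (MvPolynomial.aeval (chF a b i s (kap a i s) lam zi) H0) ≠ 0 := by
    rw [cc_aeval, funext hxi0]
    exact hH
  obtain ⟨U0, hU0, hJ⟩ := jacobian (a + b + 1) i s (kap a i s) lam zi hlam hz
  have hord : ∀ q k, HasOrd zi (chF a b i s (kap a i s) lam zi) (δ q k - i)
      (hkMinors a b (δ q k)) := by
    intro q k
    have h1 : δ q k ≤ δ p0.1 p0.2 := hp0 ⟨q, k⟩ (Finset.mem_univ _)
    exact hasOrd_minors a b i s (kap a i s) lam zi hs0 ha hb' hlam hz (δ q k) (by omega)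
  have hord2 : ∀ q, HasOrd zi (chF a b i s (kap a i s) lam zi) (∑ k, (δ q k - i))
      (hkGen a b (δ q)) := fun q => hasOrd_prod zi _ (fun k => δ q k - i) _ (hord q)
  obtain ⟨_, F, _, U, hU, hF⟩ := hasOrd_minors a b i s (kap a i s) lam zi hs0 ha hb' hlam hz
    (i + 1) (by omega)
  have key := rees_span _ bp H0 hb zi (chF a b i s (kap a i s) lam zi) hHc (a + b + 1 - 2 * i - 1)
    (∑ q, ∑ k, (δ q k - i)) l hl U0 (U ^ l) hU0 (by rw [map_pow]; exact pow_ne_zero _ hU) hJ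
    (hasOrd_prod zi _ (fun q => ∑ k, (δ q k - i)) (fun q => hkGen a b (δ q)) hord2) (F ^ l)
    (by rw [map_pow, hF, mul_pow, show i + 1 - i = 1 by omega, pow_one]) ?_
  · have h1 : ((a + b + 1 - 2 * i - 1 : ℕ) : ℂ) + 1 = ((a + b + 1 - 2 * i : ℕ) : ℂ) := by
      have h2 : a + b + 1 - 2 * i - 1 + 1 = a + b + 1 - 2 * i := by omega
      rw [← h2]
      push_cast
      ring
    rw [← h1]
    exact key
  · intro t ht
    rcases Nat.lt_or_ge (t : ℕ) (2 * i) with h | h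
    · exact Or.inl (coord_poly a b i s (kap a i s) lam zi hlam t h ht)
    · right
      refine gives_prod zi _ (fun q => ∑ k, (δ q k - i)) (fun q => hkGen a b (δ q)) hord2 p0.1 t ?_
      refine gives_prod zi _ (fun k => δ p0.1 k - i) (fun k => hkMinors a b (δ p0.1 k))
        (hord p0.1) p0.2 t ?_
      have h2 := gives_minors a b i s lam zi hs0 ha hb' hlam hz t h ht
      rw [← hs] at h2
      exact h2

theorem minors_ne (a b d : ℕ) (hd : d ≤ a ∧ d ≤ b) : ∃ j, hkMinors a b d j ≠ 0 := by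
  rcases Nat.eq_zero_or_pos d with h | h
  · subst h
    refine ⟨(Fin.elim0, Fin.elim0), ?_⟩
    rw [hkMinors, Matrix.det_isEmpty]
    exact one_ne_zero
  · obtain ⟨_, F, hF, U, hU, hFU⟩ := hasOrd_minors a b 0 d (kap a 0 d) 1 ⟨2 * 0 + d, by omega⟩ h
      (by omega) (by omega) one_ne_zero rfl d (by omega)
    by_contra hc
    push Not at hc
    have h0 : F = 0 := by
      have h1 : Submodule.span ℂ (Set.range (hkMinors a b d)) = ⊥ := by
        rw [Submodule.span_eq_bot]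
        rintro _ ⟨j, rfl⟩
        exact hc j
      rw [h1] at hF
      exact (Submodule.mem_bot ℂ).1 hF
    rw [h0, map_zero] at hFU
    have h2 : U ≠ 0 := by
      rintro rfl
      exact hU (map_zero _)
    exact mul_ne_zero (pow_ne_zero _ (X_ne0 _)) h2 hFU.symm

theorem hkGen_ne (a b : ℕ) {K : Type} [Fintype K] (δ : K → ℕ) (hd : ∀ k, δ k ≤ a ∧ δ k ≤ b) :
    ∃ j, hkGen a b δ j ≠ 0 := by
  choose j hj using fun k => minors_ne a b (δ k) (hd k)
  exact ⟨j, Finset.prod_ne_zero_iff.2 fun k _ => hj k⟩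

section Num

variable {T : Type} [Fintype T] {K : T → Type} [∀ t, Fintype (K t)]

/-- The numbers `ν` of the components: `a + b + 1 - 2 i`, the codimension of the cone over the
`i`-th secant variety (Hankel matrices of rank at most `i`), `i < m`, and `1`. -/
def nuH (a b m : ℕ) (T : Type) : Fin m ⊕ T → ℕ :=
  Sum.elim (fun i => a + b + 1 - 2 * i) fun _ => 1

/-- The multiplicities of `∏ t, F_t ^ e t`, where `F_t` is a form over `∏ k, I_{δ t k}`:
`∑ t, e t ∑ k, (δ t k - i)`, the sum over the `k` with `δ t k > i`, and `e t`. -/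
def mulH (m : ℕ) (δ : (t : T) → K t → ℕ) (e : T → ℕ) : Fin m ⊕ T → ℕ :=
  Sum.elim (fun i => ∑ t, e t * ∑ k, (δ t k - i)) e

theorem nuH_pos (a b m : ℕ) (hm : m ≤ a ∧ m ≤ b) (x : Fin m ⊕ T) : 0 < nuH a b m T x := by
  rcases x with i | t
  · have h := i.2
    change 0 < a + b + 1 - 2 * (i : ℕ)
    omega
  · exact one_pos

theorem sum_fac_hk (δ : (t : T) → K t → ℕ) (e : T → ℕ) (i : ℕ) :
    ∑ q : Σ t, Fin (e t), ∑ k, (δ q.1 k - i) = ∑ t, e t * ∑ k, (δ t k - i) := by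
  rw [Fintype.sum_sigma]
  refine Finset.sum_congr rfl fun t _ => ?_
  change ∑ _x : Fin (e t), ∑ k, (δ t k - i) = _
  rw [Finset.sum_const, Finset.card_univ, Fintype.card_fin, smul_eq_mul]

end Num

section

variable {T : Type} [Fintype T] [DecidableEq T] {K : T → Type} [∀ t, Fintype (K t)]
  [∀ t, DecidableEq (K t)]

/-- **The roots for products of powers of products of ideals of minors.** -/
theorem ideal_roots (a b : ℕ) (δ : (t : T) → K t → ℕ) (hd : ∀ t k, δ t k ≤ a ∧ δ t k ≤ b)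
    (e : T → ℕ) (i : ℕ) (bp : Polynomial ℂ)
    (H0 : MvPolynomial (Fin (a + b + 1)) ℂ) (hH0 : MvPolynomial.constantCoeff H0 ≠ 0)
    (hb : IsLocEq H0 (prodFam fun q : Σ t, Fin (e t) => hkGen a b (δ q.1)) bp) (l : ℕ)
    (hl : l < ∑ t, e t * ∑ k, (δ t k - i)) :
    bp.eval (-(((a + b + 1 - 2 * i : ℕ) : ℂ) + l) / (∑ t, e t * ∑ k, (δ t k - i) : ℕ)) = 0 := by
  rw [← sum_fac_hk] at hl ⊢
  exact hk_core2 a b (fun q : Σ t, Fin (e t) => δ q.1) (fun q => hd q.1) i bp H0 hH0 hb l hl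

/-- **The roots for the products of powers of forms.** -/
theorem pow_roots (a b m : ℕ) (δ : (t : T) → K t → ℕ) (hd : ∀ t k, δ t k ≤ a ∧ δ t k ≤ b)
    (e : T → ℕ) (bp : Polynomial ℂ) (hb : PowData e (fun t => hkGen a b (δ t)) bp)
    (x : Fin m ⊕ T) (l : ℕ) (hl : l < mulH m δ e x) :
    bp.eval (-((nuH a b m T x : ℂ) + l) / mulH m δ e x) = 0 := by
  rcases x with i | t
  · obtain ⟨t0, _, ht0⟩ := Finset.exists_ne_zero_of_sum_ne_zero
      (by have : l < ∑ t, e t * ∑ k, (δ t k - i) := hl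
          omega : ∑ t, e t * ∑ k, (δ t k - i) ≠ 0)
    obtain ⟨H, hH, hHb⟩ := hb.ideal ⟨t0, left_ne_zero_of_mul ht0⟩
    exact ideal_roots a b δ hd e i bp H hH hHb l hl
  · have h3 := hb.strict t l hl
    change bp.eval (-(((1 : ℕ) : ℂ) + l) / e t) = 0
    rw [Nat.cast_one]
    exact h3

end

end Pool.Agent.R797.HK
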