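import Mathlib

set_option autoImplicit false
set_option linter.unusedSectionVars false
set_option linter.unusedVariables false

/-! # Linear recurrences -/

namespace Pool.Agent.R797.HK

section Rec

variable {R : Type} [CommRing R] (i : ℕ) (p : ℕ → R)

/-- the solution of `x m = g m` for `m < i`, `x m = g m - ∑ j, p j * x (m - i + j)` for `m ≥ i` -/
def sol (g : ℕ → R) (m : ℕ) : R :=
  g m - if h : m < i then 0 else ∑ j : Fin i, p j * sol g (m - i + j)
termination_by m
decreasing_by have := j.2; omega

theorem sol_lt (g : ℕ → R) {m : ℕ} (h : m < i) : sol i p g m = g m := by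
  rw [sol, dif_pos h, sub_zero]

theorem sol_ge (g : ℕ → R) {m : ℕ} (h : i ≤ m) :
    sol i p g m = g m - ∑ j : Fin i, p j * sol i p g (m - i + j) := by
  rw [sol, dif_neg (by omega)]

theorem sol_congr (g g' : ℕ → R) (m : ℕ) (h : ∀ m' ≤ m, g m' = g' m') :
    sol i p g m = sol i p g' m := by
  induction m using Nat.strong_induction_on with
  | _ m ih =>
    rcases Nat.lt_or_ge m i with hm | hm
    · rw [sol_lt i p g hm, sol_lt i p g' hm, h m le_rfl]
    · rw [sol_ge i p g hm, sol_ge i p g' hm, h m le_rfl]
      congr 1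
      refine Finset.sum_congr rfl fun j _ => ?_
      have hj := j.2
      rw [ih (m - i + j) (by omega) fun m' hm' => h m' (by omega)]

theorem sol_zero (m : ℕ) : sol i p (fun _ => 0) m = 0 := by
  induction m using Nat.strong_induction_on with
  | _ m ih =>
    rcases Nat.lt_or_ge m i with hm | hm
    · rw [sol_lt i p _ hm]
    · rw [sol_ge i p _ hm, zero_sub, neg_eq_zero]
      refine Finset.sum_eq_zero fun j _ => ?_
      have hj := j.2
      rw [ih (m - i + j) (by omega), mul_zero]

theorem sol_eq_zero (g : ℕ → R) (m : ℕ) (h : ∀ m' ≤ m, g m' = 0) : sol i p g m = 0 := by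
  rw [sol_congr i p g (fun _ => 0) m h, sol_zero]

theorem sol_map {R' : Type} [CommRing R'] (φ : R →+* R') (g : ℕ → R) (m : ℕ) :
    φ (sol i p g m) = sol i (fun j => φ (p j)) (fun m => φ (g m)) m := by
  induction m using Nat.strong_induction_on with
  | _ m ih =>
    rcases Nat.lt_or_ge m i with hm | hm
    · rw [sol_lt i p g hm, sol_lt i _ _ hm]
    · rw [sol_ge i p g hm, sol_ge i _ _ hm, map_sub, map_sum]
      congr 1
      refine Finset.sum_congr rfl fun j _ => ?_
      have hj := j.2
      rw [map_mul, ih (m - i + j) (by omega)]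

/-- the same for a map which is only linear over the coefficients -/
theorem sol_der (D : R → R) (hD0 : D 0 = 0) (hDsub : ∀ x y, D (x - y) = D x - D y)
    (hDsum : ∀ f : Fin i → R, D (∑ j, f j) = ∑ j, D (f j))
    (hDp : ∀ j x, j < i → D (p j * x) = p j * D x) (g : ℕ → R) (m : ℕ) :
    D (sol i p g m) = sol i p (fun m => D (g m)) m := by
  induction m using Nat.strong_induction_on with
  | _ m ih =>
    rcases Nat.lt_or_ge m i with hm | hm
    · rw [sol_lt i p g hm, sol_lt i _ _ hm]
    · rw [sol_ge i p g hm, sol_ge i _ _ hm, hDsub, hDsum]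
      congr 1
      refine Finset.sum_congr rfl fun j _ => ?_
      have hj := j.2
      rw [hDp _ _ hj, ih (m - i + j) (by omega)]

theorem p_mul_sol (hp : ∀ j j', j < i → j' < i → p j * p j' = 0) (g : ℕ → R) (m : ℕ) (j : ℕ)
    (hj : j < i) : p j * sol i p g m = p j * g m := by
  rcases Nat.lt_or_ge m i with hm | hm
  · rw [sol_lt i p g hm]
  · rw [sol_ge i p g hm, mul_sub, Finset.mul_sum]
    rw [Finset.sum_eq_zero, sub_zero]
    intro j' _
    rw [← mul_assoc, hp j j' hj j'.2, zero_mul]

theorem sol_nil (hp : ∀ j j', j < i → j' < i → p j * p j' = 0) (g : ℕ → R) {m : ℕ}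
    (hm : i ≤ m) : sol i p g m = g m - ∑ j : Fin i, p j * g (m - i + j) := by
  rw [sol_ge i p g hm]
  congr 1
  exact Finset.sum_congr rfl fun j _ => p_mul_sol i p hp g _ j j.2

/-- the coefficients of the sequences with given initial values -/
def kk (c : ℕ) (j : ℕ) : R := sol i p (fun m => if m = j then 1 else 0) c

theorem shift (g : ℕ → R) (hg : ∀ m, i ≤ m → g m = 0) (r c : ℕ) :
    sol i p g (r + c) = ∑ j : Fin i, kk i p c j * sol i p g (r + j) := by
  induction c using Nat.strong_induction_on with
  | _ c ih =>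
    rcases Nat.lt_or_ge c i with hc | hc
    · rw [Finset.sum_eq_single (⟨c, hc⟩ : Fin i)]
      · rw [kk, sol_lt i p _ hc, if_pos rfl, one_mul]
      · intro j _ hj
        rw [kk, sol_lt i p _ hc, if_neg, zero_mul]
        intro h
        exact hj (Fin.ext h.symm)
      · intro h; exact absurd (Finset.mem_univ _) h
    · rw [sol_ge i p g (by omega : i ≤ r + c), hg _ (by omega), zero_sub]
      have h1 : ∀ j : Fin i, p j * sol i p g (r + c - i + j)
          = ∑ j' : Fin i, p j * kk i p (c - i + j) j' * sol i p g (r + j') := by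
        intro j
        have hj := j.2
        have h2 : r + c - i + (j : ℕ) = r + (c - i + j) := by omega
        rw [h2, ih (c - i + j) (by omega), Finset.mul_sum]
        exact Finset.sum_congr rfl fun j' _ => (mul_assoc _ _ _).symm
      rw [Finset.sum_congr rfl fun j _ => h1 j, Finset.sum_comm, ← Finset.sum_neg_distrib]
      refine Finset.sum_congr rfl fun j' _ => ?_
      rw [← Finset.sum_mul, kk, sol_ge i p _ hc, if_neg (by have := j'.2; omega), zero_sub,
        neg_mul]
      rfl

theorem kk_nil (hp : ∀ j j', j < i → j' < i → p j * p j' = 0) (χ : ℕ) (j : ℕ) (hj : j < i) :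
    kk i p (i + χ) j = if χ ≤ j then - p (j - χ) else 0 := by
  rw [kk, sol_nil i p hp _ (by omega : i ≤ i + χ), if_neg (by omega), zero_sub]
  split_ifs with h
  · rw [Finset.sum_eq_single (⟨j - χ, by omega⟩ : Fin i)]
    · rw [if_pos (by change i + χ - i + (j - χ) = j; omega), mul_one]
    · intro j' _ hj'
      rw [if_neg, mul_zero]
      intro h'
      apply hj'
      apply Fin.ext
      change (j' : ℕ) = j - χ
      omega
    · intro h; exact absurd (Finset.mem_univ _) h
  · rw [Finset.sum_eq_zero, neg_zero]
    intro j' _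
    rw [if_neg (by omega), mul_zero]

end Rec

section X1

variable {R : Type} [CommRing R] (i s : ℕ) (p W : ℕ → R)

/-- the response to `W` -/
def x1 (m : ℕ) : R := sol i p (fun m => if m < 2 * i then 0 else W (m - 2 * i)) m

theorem x1_lt {m : ℕ} (h : m < 2 * i) : x1 i p W m = 0 :=
  sol_eq_zero i p _ m fun m' hm' => if_pos (by omega)

/-- the entry of index `(r, c)` in terms of the first columns -/
def yy (r c : ℕ) : R := x1 i p W (r + c) - ∑ j : Fin i, kk i p c j * x1 i p W (r + j)

/-- the correction -/
def cor (l : ℕ) : R := if s < l ∧ l ≤ i + s then p (i + s - l) else 0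

theorem x1_nil (hp : ∀ j j', j < i → j' < i → p j * p j' = 0)
    (hW : ∀ j l, j < i → p j * W l = if l = s then p j else 0) (l : ℕ) :
    x1 i p W (2 * i + l) = W l - cor i s p l := by
  rw [x1, sol_nil i p hp _ (by omega : i ≤ 2 * i + l), if_neg (by omega)]
  congr 1
  · congr 1; omega
  · rw [cor]
    split_ifs with h
    · rw [Finset.sum_eq_single (⟨i + s - l, by omega⟩ : Fin i)]
      · rw [if_neg (by change ¬ (2 * i + l - i + (i + s - l) < 2 * i); omega), hW _ _ (by
          change i + s - l < i; omega), if_pos (by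
          change 2 * i + l - i + (i + s - l) - 2 * i = s; omega)]
      · intro j _ hj
        have hj2 := j.2
        split_ifs with h2
        · exact mul_zero _
        · rw [hW _ _ hj2, if_neg]
          intro h3
          apply hj
          apply Fin.ext
          change (j : ℕ) = i + s - l
          omega
      · intro h; exact absurd (Finset.mem_univ _) h
    · refine Finset.sum_eq_zero fun j _ => ?_
      have hj2 := j.2
      split_ifs with h2
      · exact mul_zero _
      · rw [hW _ _ hj2, if_neg (by omega)]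

theorem sum_kk_x1 (hp : ∀ j j', j < i → j' < i → p j * p j' = 0)
    (hW : ∀ j l, j < i → p j * W l = if l = s then p j else 0) (ρ χ : ℕ) :
    ∑ j : Fin i, kk i p (i + χ) j * x1 i p W (i + ρ + j)
      = if s < ρ then - cor i s p (ρ + χ) else 0 := by
  have h1 : ∀ j : Fin i, kk i p (i + χ) j * x1 i p W (i + ρ + j)
      = if χ ≤ (j : ℕ) ∧ ρ + j = i + s then - p (j - χ) else 0 := by
    intro j
    have hj := j.2
    rw [kk_nil i p hp χ j hj]
    by_cases h : χ ≤ (j : ℕ)
    · rw [if_pos h, neg_mul, x1, p_mul_sol i p hp _ _ _ (by omega)]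
      split_ifs with h2 h3 h3
      · omega
      · rw [mul_zero, neg_zero]
      · rw [hW _ _ (by omega), if_pos (by omega)]
      · rw [hW _ _ (by omega), if_neg (by omega), neg_zero]
    · rw [if_neg h, zero_mul, if_neg fun h' => h h'.1]
  rw [Finset.sum_congr rfl fun j _ => h1 j]
  by_cases hρ : s < ρ ∧ ρ + χ ≤ i + s
  · rw [if_pos hρ.1, Finset.sum_eq_single (⟨i + s - ρ, by omega⟩ : Fin i)]
    · rw [if_pos (by
        change χ ≤ i + s - ρ ∧ ρ + (i + s - ρ) = i + s
        omega), cor, if_pos (by omega)]
      congr 2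
      change i + s - ρ - χ = i + s - (ρ + χ)
      omega
    · intro j _ hj
      have hj2 := j.2
      rw [if_neg]
      intro h3
      apply hj
      apply Fin.ext
      change (j : ℕ) = i + s - ρ
      omega
    · intro h; exact absurd (Finset.mem_univ _) h
  · rw [Finset.sum_eq_zero]
    · split_ifs with h2
      · rw [cor, if_neg (by omega), neg_zero]
      · rfl
    · intro j _
      have hj := j.2
      rw [if_neg (by omega)]

/-- the entries of the Schur complement -/
def sch (ρ χ : ℕ) : R := yy i p W (i + ρ) (i + χ)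
  - ∑ j : Fin i, kk i p (i + ρ) j * yy i p W j (i + χ)

theorem yy_top (hp : ∀ j j', j < i → j' < i → p j * p j' = 0) (j : Fin i) (χ : ℕ) :
    yy i p W j (i + χ) = x1 i p W (i + χ + j) := by
  rw [yy, Finset.sum_eq_zero, sub_zero, add_comm]
  intro j' _
  rw [x1_lt i p W (by have := j.2; have := j'.2; omega), mul_zero]

theorem sch_nil (hp : ∀ j j', j < i → j' < i → p j * p j' = 0)
    (hW : ∀ j l, j < i → p j * W l = if l = s then p j else 0) (ρ χ : ℕ) :
    sch i p W ρ χ = W (ρ + χ) -
      (1 - (if s < ρ then 1 else 0) - (if s < χ then 1 else 0)) * cor i s p (ρ + χ) := by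
  rw [sch, yy, sum_kk_x1 i s p W hp hW]
  simp only [yy_top i p W hp]
  rw [sum_kk_x1 i s p W hp hW, show i + ρ + (i + χ) = 2 * i + (ρ + χ) by ring,
    x1_nil i s p W hp hW, add_comm χ ρ]
  split_ifs <;> ring

end X1

end Pool.Agent.R797.HK
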