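import Pool.Agent.R797.HK.Fam
import Pool.Agent.R852.FP.Core

set_option autoImplicit false
set_option linter.unusedSectionVars false
set_option linter.unusedVariables false

/-! # The roots for products of ideals of minors of the generic Hankel matrix -/

namespace Pool.Agent.R797.HK

open MvPowerSeries Pool.Agent.W574.SM Pool.Agent.TH192.DT Pool.Agent.W574.LM Pool.Agent.TH187.SA

theorem hk_core {τ : Type} [Fintype τ] [DecidableEq τ] (a b : ℕ) (d : τ → ℕ)
    (hd : ∀ q, d q ≤ a ∧ d q ≤ b) (i : ℕ) (bp : Polynomial ℂ)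
    (H0 : MvPolynomial (Fin (a + b + 1)) ℂ) (hH0 : MvPolynomial.constantCoeff H0 ≠ 0)
    (hb : IsLocEq H0 (prodFam fun q => hkMinors a b (d q)) bp) (l : ℕ)
    (hl : l < ∑ q, (d q - i)) :
    bp.eval (-(((a + b + 1 - 2 * i : ℕ) : ℂ) + l) / (∑ q, (d q - i) : ℕ)) = 0 := by
  classical
  obtain ⟨q1, _, hq1⟩ : ∃ q ∈ Finset.univ, d q - i ≠ 0 :=
    Finset.exists_ne_zero_of_sum_ne_zero (by omega)
  obtain ⟨q0, _, hq0⟩ := Finset.exists_max_image Finset.univ d ⟨q1, Finset.mem_univ _⟩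
  have hmax := hq0 q1 (Finset.mem_univ _)
  obtain ⟨s, hs⟩ : ∃ s, d q0 = i + s := ⟨d q0 - i, by omega⟩
  have hs0 : 0 < s := by omega
  have ha : i + s ≤ a := hs ▸ (hd q0).1
  have hb' : i + s ≤ b := hs ▸ (hd q0).2
  obtain ⟨lam, hlam, hH⟩ := exists_scale H0 hH0
    (fun m : Fin (a + b + 1) => if (m : ℕ) + 1 = i then (1 : ℂ) else 0)
  let zi : Fin (a + b + 1) := ⟨2 * i + s, by omega⟩
  have hz : (zi : ℕ) = 2 * i + s := rfl
  have hxi0 : ∀ m, constantCoeff (chF a b i s (kap a i s) lam zi m)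
      = lam * (if (m : ℕ) + 1 = i then (1 : ℂ) else 0) := by
    intro m
    rw [chF, cc_ch]
    split_ifs <;> simp
  have hHc : constantCoeff (MvPolynomial.aeval (chF a b i s (kap a i s) lam zi) H0) ≠ 0 := by
    rw [cc_aeval, funext hxi0]
    exact hH
  obtain ⟨U0, hU0, hJ⟩ := jacobian (a + b + 1) i s (kap a i s) lam zi hlam hz
  have hord : ∀ q, HasOrd zi (chF a b i s (kap a i s) lam zi) (d q - i) (hkMinors a b (d q)) := by
    intro q
    have h1 := hq0 q (Finset.mem_univ _)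
    exact hasOrd_minors a b i s (kap a i s) lam zi hs0 ha hb' hlam hz (d q) (by omega)
  obtain ⟨_, F, _, U, hU, hF⟩ := hasOrd_minors a b i s (kap a i s) lam zi hs0 ha hb' hlam hz
    (i + 1) (by omega)
  have key := rees_span _ bp H0 hb zi (chF a b i s (kap a i s) lam zi) hHc (a + b + 1 - 2 * i - 1)
    (∑ q, (d q - i)) l hl U0 (U ^ l) hU0 (by rw [map_pow]; exact pow_ne_zero _ hU) hJ
    (hasOrd_prod zi _ (fun q => d q - i) (fun q => hkMinors a b (d q)) hord) (F ^ l)
    (by rw [map_pow, hF, mul_pow, show i + 1 - i = 1 by omega, pow_one]) ?_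
  · have h1 : ((a + b + 1 - 2 * i - 1 : ℕ) : ℂ) + 1 = ((a + b + 1 - 2 * i : ℕ) : ℂ) := by
      have h2 : a + b + 1 - 2 * i - 1 + 1 = a + b + 1 - 2 * i := by omega
      rw [← h2]
      push_cast
      ring
    rw [← h1]
    exact key
  · intro t ht
    rcases Nat.lt_or_ge (t : ℕ) (2 * i) with h | h
    · exact Or.inl (coord_poly a b i s (kap a i s) lam zi hlam t h ht)
    · right
      refine gives_prod zi _ (fun q => d q - i) (fun q => hkMinors a b (d q)) hord q0 t ?_
      have h2 := gives_minors a b i s lam zi hs0 ha hb' hlam hz t h ht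
      rw [← hs] at h2
      exact h2

end Pool.Agent.R797.HK
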