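import Pool.Agent.R797.HK.Roots
import Pool.Agent.R797.HK.Prod

set_option autoImplicit false
set_option linter.unusedSectionVars false
set_option linter.unusedVariables false

/-! # The numbers `ν / N` are distinct -/

namespace Pool.Agent.R797.HK

open Pool.Agent.W574.SM Pool.Agent.TH192.DT Pool.Agent.W574.LM Pool.Agent.TH187.SA

/-- The multiplicity `∑ t, e t (δ t - i)` (the sum over the `t` with `δ t > i`) of the ideal
`∏ t, I_{δ t} ^ e t` along the divisor over the Hankel matrices of rank at most `i`. -/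
def mulI {T : Type} [Fintype T] (δ e : T → ℕ) (i : ℕ) : ℕ := ∑ t, e t * (δ t - i)

section

variable {T : Type} [Fintype T]

theorem term_le (n δ i j : ℕ) (hδ : 2 * δ < n) (hij : i < j) (hjn : 2 * j < n) :
    (n - 2 * i) * (δ - j) ≤ (n - 2 * j) * (δ - i) ∧
      (0 < δ - i → (n - 2 * i) * (δ - j) < (n - 2 * j) * (δ - i)) := by
  rcases Nat.lt_or_ge j δ with h | h
  · obtain ⟨x, rfl⟩ : ∃ x, δ = j + x + 1 := ⟨δ - j - 1, by omega⟩
    obtain ⟨y, rfl⟩ : ∃ y, j = i + y + 1 := ⟨j - i - 1, by omega⟩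
    obtain ⟨w, rfl⟩ : ∃ w, n = 2 * (i + y + 1 + x + 1) + w + 1 :=
      ⟨n - 2 * (i + y + 1 + x + 1) - 1, by omega⟩
    have h1 : 2 * (i + y + 1 + x + 1) + w + 1 - 2 * i = 2 * y + 2 * x + w + 5 := by omega
    have h2 : i + y + 1 + x + 1 - (i + y + 1) = x + 1 := by omega
    have h3 : 2 * (i + y + 1 + x + 1) + w + 1 - 2 * (i + y + 1) = 2 * x + w + 3 := by omega
    have h4 : i + y + 1 + x + 1 - i = y + x + 2 := by omega
    rw [h1, h2, h3, h4]
    constructor
    · nlinarith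
    · intro _; nlinarith
  · rw [Nat.sub_eq_zero_of_le h, mul_zero]
    exact ⟨Nat.zero_le _, fun h2 => Nat.mul_pos (by omega) h2⟩

theorem mulI_lt (n : ℕ) (δ e : T → ℕ) (hδ : ∀ t, 2 * δ t < n) (i j : ℕ) (hij : i < j)
    (hjn : 2 * j < n) (hN : 0 < mulI δ e i) :
    (n - 2 * i) * mulI δ e j < (n - 2 * j) * mulI δ e i := by
  rw [mulI, mulI, Finset.mul_sum, Finset.mul_sum]
  have h0 : ∀ t, (n - 2 * i) * (e t * (δ t - j)) ≤ (n - 2 * j) * (e t * (δ t - i)) := by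
    intro t
    have h := (term_le n (δ t) i j (hδ t) hij hjn).1
    calc (n - 2 * i) * (e t * (δ t - j)) = e t * ((n - 2 * i) * (δ t - j)) := by ring
      _ ≤ e t * ((n - 2 * j) * (δ t - i)) := Nat.mul_le_mul_left _ h
      _ = _ := by ring
  obtain ⟨t, _, ht⟩ := Finset.exists_ne_zero_of_sum_ne_zero (Nat.pos_iff_ne_zero.1 hN)
  refine Finset.sum_lt_sum (fun t _ => h0 t) ⟨t, Finset.mem_univ t, ?_⟩
  have h := (term_le n (δ t) i j (hδ t) hij hjn).2
    (Nat.pos_of_ne_zero (right_ne_zero_of_mul ht))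
  have het := Nat.pos_of_ne_zero (left_ne_zero_of_mul ht)
  calc (n - 2 * i) * (e t * (δ t - j)) = e t * ((n - 2 * i) * (δ t - j)) := by ring
    _ < e t * ((n - 2 * j) * (δ t - i)) := Nat.mul_lt_mul_of_pos_left h het
    _ = _ := by ring

theorem lin_dvd (N ν : ℕ) (hν : 0 < ν) (b : Polynomial ℂ)
    (h : 0 < N → b.eval (-(ν : ℂ) / N) = 0) :
    (Polynomial.C (N : ℂ) * Polynomial.X + Polynomial.C (ν : ℂ)) ∣ b := by
  rcases Nat.eq_zero_or_pos N with h0 | h0
  · subst h0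
    rw [Nat.cast_zero, map_zero, zero_mul, zero_add]
    exact (Polynomial.isUnit_C.2 (isUnit_iff_ne_zero.2 (Nat.cast_ne_zero.2 hν.ne'))).dvd
  · have h1 := Polynomial.dvd_iff_isRoot.2 (h h0)
    have hN : (N : ℂ) ≠ 0 := Nat.cast_ne_zero.2 h0.ne'
    have h2 : (Polynomial.C (N : ℂ) * Polynomial.X + Polynomial.C (ν : ℂ))
        = Polynomial.C (N : ℂ) * (Polynomial.X - Polynomial.C (-(ν : ℂ) / N)) := by
      rw [mul_sub, ← Polynomial.C_mul, mul_div_cancel₀ _ hN, Polynomial.C_neg, sub_neg_eq_add]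
    rw [h2]
    exact (Polynomial.isUnit_C.2 (isUnit_iff_ne_zero.2 hN)).mul_left_dvd.2 h1

theorem lin_coprime (N ν N' ν' : ℕ) (h : ν * N' < ν' * N) :
    IsCoprime (Polynomial.C (N : ℂ) * Polynomial.X + Polynomial.C (ν : ℂ))
      (Polynomial.C (N' : ℂ) * Polynomial.X + Polynomial.C (ν' : ℂ)) := by
  have hc : ((ν' : ℂ) * N - ν * N') ≠ 0 := by
    rw [sub_ne_zero]
    intro h1
    have h2 : ν' * N = ν * N' := by exact_mod_cast h1
    omega
  refine ⟨Polynomial.C (-(N' : ℂ) / (ν' * N - ν * N')), Polynomial.C ((N : ℂ) / (ν' * N - ν * N')),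
    ?_⟩
  have h1 : Polynomial.C (-(N' : ℂ) / (ν' * N - ν * N')) *
      (Polynomial.C (N : ℂ) * Polynomial.X + Polynomial.C (ν : ℂ)) +
      Polynomial.C ((N : ℂ) / (ν' * N - ν * N')) *
        (Polynomial.C (N' : ℂ) * Polynomial.X + Polynomial.C (ν' : ℂ))
      = Polynomial.C ((-(N' : ℂ) / (ν' * N - ν * N')) * N + ((N : ℂ) / (ν' * N - ν * N')) * N') *
        Polynomial.X + Polynomial.C ((-(N' : ℂ) / (ν' * N - ν * N')) * ν +
          ((N : ℂ) / (ν' * N - ν * N')) * ν') := by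
    simp only [Polynomial.C_add, Polynomial.C_mul]
    ring
  rw [h1]
  have h2 : (-(N' : ℂ) / (ν' * N - ν * N')) * N + ((N : ℂ) / (ν' * N - ν * N')) * N' = 0 := by
    ring
  have h3 : (-(N' : ℂ) / (ν' * N - ν * N')) * ν + ((N : ℂ) / (ν' * N - ν * N')) * ν' = 1 := by
    have h4 : (-(N' : ℂ) / (ν' * N - ν * N')) * ν + ((N : ℂ) / (ν' * N - ν * N')) * ν'
        = (ν' * N - ν * N') / (ν' * N - ν * N') := by ring
    rw [h4, div_self hc]
  rw [h2, h3, map_zero, zero_mul, zero_add, map_one]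

/-- A polynomial with the roots `-ν_i / N_i`, which are distinct, is divisible by the products of
the `N_i s + ν_i`. -/
theorem prod_dvd {m : ℕ} (N ν : Fin m → ℕ) (hν : ∀ i, 0 < ν i)
    (hlt : ∀ i j, i < j → 0 < N i → ν i * N j < ν j * N i)
    (b : Polynomial ℂ) (h : ∀ i, 0 < N i → b.eval (-(ν i : ℂ) / N i) = 0) (S : Finset (Fin m)) :
    ∏ i ∈ S, (Polynomial.C (N i : ℂ) * Polynomial.X + Polynomial.C (ν i : ℂ)) ∣ b := by
  refine Finset.prod_dvd_of_coprime ?_ fun i _ => lin_dvd (N i) (ν i) (hν i) b (h i)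
  intro i _ j _ hij
  change IsCoprime _ _
  have hunit : ∀ k, N k = 0 → IsUnit (Polynomial.C (N k : ℂ) * Polynomial.X +
      Polynomial.C (ν k : ℂ)) := by
    intro k hk
    rw [hk, Nat.cast_zero, map_zero, zero_mul, zero_add]
    exact Polynomial.isUnit_C.2 (isUnit_iff_ne_zero.2 (Nat.cast_ne_zero.2 (hν k).ne'))
  rcases lt_or_gt_of_ne hij with h1 | h1
  · rcases Nat.eq_zero_or_pos (N i) with h2 | h2
    · obtain ⟨u, hu⟩ := hunit i h2
      exact ⟨((u⁻¹ : (Polynomial ℂ)ˣ) : Polynomial ℂ), 0, by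
        rw [zero_mul, add_zero]
        change _ * (Polynomial.C (N i : ℂ) * Polynomial.X + Polynomial.C (ν i : ℂ)) = 1
        rw [← hu, Units.inv_mul]⟩
    · exact lin_coprime _ _ _ _ (hlt i j h1 h2)
  · rcases Nat.eq_zero_or_pos (N j) with h2 | h2
    · obtain ⟨u, hu⟩ := hunit j h2
      exact ⟨0, ((u⁻¹ : (Polynomial ℂ)ˣ) : Polynomial ℂ), by
        rw [zero_mul, zero_add]
        change _ * (Polynomial.C (N j : ℂ) * Polynomial.X + Polynomial.C (ν j : ℂ)) = 1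
        rw [← hu, Units.inv_mul]⟩
    · exact (lin_coprime _ _ _ _ (hlt j i h1 h2)).symm

/-- **Strong form**: the product of `b` and the topological zeta function is a polynomial. -/
theorem topZ_mul {m : ℕ} (N ν : Fin m → ℕ) (hν : ∀ i, 0 < ν i)
    (hlt : ∀ i j, i < j → 0 < N i → ν i * N j < ν j * N i)
    (b : Polynomial ℂ) (h : ∀ i, 0 < N i → b.eval (-(ν i : ℂ) / N i) = 0)
    (χ : Finset (Fin m) → ℤ) :
    ∃ P : Polynomial ℂ, algebraMap (Polynomial ℂ) (RatFunc ℂ) b * topZ ν N χ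
      = algebraMap (Polynomial ℂ) (RatFunc ℂ) P := by
  choose Q hQ using prod_dvd N ν hν hlt b h
  refine ⟨∑ S : Finset (Fin m), Polynomial.C ((χ S : ℤ) : ℂ) * Q S, ?_⟩
  rw [topZ, Finset.mul_sum, map_sum]
  refine Finset.sum_congr rfl fun S _ => ?_
  have hne : ∀ i, ((N i : RatFunc ℂ) * RatFunc.X + (ν i : RatFunc ℂ)) ≠ 0 := by
    intro i h0
    have h1 : algebraMap (Polynomial ℂ) (RatFunc ℂ)
        (Polynomial.C (N i : ℂ) * Polynomial.X + Polynomial.C (ν i : ℂ)) = 0 := by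
      rw [← h0, map_add, map_mul, RatFunc.algebraMap_X]
      simp
    have h2 := (map_eq_zero_iff _ (RatFunc.algebraMap_injective ℂ)).1 h1
    have h3 := congrArg (Polynomial.eval 0) h2
    simp at h3
    have := hν i
    omega
  have h1 : algebraMap (Polynomial ℂ) (RatFunc ℂ) b
      = (∏ i ∈ S, ((N i : RatFunc ℂ) * RatFunc.X + (ν i : RatFunc ℂ))) *
        algebraMap (Polynomial ℂ) (RatFunc ℂ) (Q S) := by
    rw [hQ S, map_mul, map_prod]
    congr 1
    refine Finset.prod_congr rfl fun i _ => ?_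
    rw [map_add, map_mul, RatFunc.algebraMap_X]
    simp
  rw [h1, map_mul, RatFunc.algebraMap_C]
  have h2 : (∏ i ∈ S, ((N i : RatFunc ℂ) * RatFunc.X + (ν i : RatFunc ℂ))) *
      ∏ i ∈ S, ((N i : RatFunc ℂ) * RatFunc.X + (ν i : RatFunc ℂ))⁻¹ = 1 := by
    rw [← Finset.prod_mul_distrib]
    exact Finset.prod_eq_one fun i _ => mul_inv_cancel₀ (hne i)
  linear_combination (RatFunc.C ((χ S : ℤ) : ℂ) * algebraMap (Polynomial ℂ) (RatFunc ℂ) (Q S)) * h2

end

end Pool.Agent.R797.HK
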